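import Pool.Agent.W5h38.ML.D

/-!
# Large one-sided values of `M` and `L` on large sets
-/

set_option autoImplicit false
set_option maxHeartbeats 4000000

open Complex MeasureTheory Filter Topology Set
open H313.TK
open Pool.Agent.W190 (SF rh_free zero_FF)
open Pool.Agent.R303.SW (laR muR supre liou_bound large_set win_of_op moebius_op liou_op SF_II SF_meas)

namespace Pool.Agent.W5h38.ML

noncomputable section

/-- the Riemann Hypothesis holds and all nontrivial zeros are simple -/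
def RHS : Prop := ∀ ρ : ℂ, riemannZeta ρ = 0 → 0 < ρ.re → ρ.re < 1 → ρ.re = 1 / 2 ∧ deriv riemannZeta ρ ≠ 0

/-- the properties that are used (`f` is the function on the exponential scale) -/
structure Good (f : ℝ → ℝ) : Prop where
  meas : Measurable f
  bd : ∀ u, |f u| ≤ Real.exp u
  up : ∀ σ0 : ℝ, 1 / 2 ≤ σ0 → (∀ s : ℂ, σ0 < s.re → riemannZeta s ≠ 0) → ∀ κ : ℝ, σ0 < κ →
    ∃ K : ℝ, 0 ≤ K ∧ ∀ u : ℝ, 0 ≤ u → |f u| ≤ K * Real.exp (κ * u)
  c1 : ∀ ρ : ℂ, riemannZeta ρ = 0 → 1 / 2 < ρ.re → ρ.re < 1 →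
    ∃ c : ℝ, 0 < c ∧ ∀ᶠ t : ℝ in atTop, ∀ s : ℝ, s = 1 ∨ s = -1 →
      c * ((fun _ : ℝ => (1:ℝ)) t * Real.exp (ρ.re * t)) ≤ ∫ v : ℝ, max (s * f (t - v)) 0 * kp v
  c2 : ∀ ρ : ℂ, riemannZeta ρ = 0 → deriv riemannZeta ρ = 0 → 1 / 2 ≤ ρ.re → ρ.re < 1 →
    ∃ c : ℝ, 0 < c ∧ ∀ᶠ t : ℝ in atTop, ∀ s : ℝ, s = 1 ∨ s = -1 →
      c * (t * Real.exp (ρ.re * t)) ≤ ∫ v : ℝ, max (s * f (t - v)) 0 * kp v

theorem up_of {E : ℝ → ℝ} (κ : ℝ) (h : ∃ C : ℝ, ∀ y : ℝ, 1 ≤ y → |E y| ≤ C * y ^ κ) :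
    ∃ K : ℝ, 0 ≤ K ∧ ∀ u : ℝ, 0 ≤ u → |E (Real.exp u)| ≤ K * Real.exp (κ * u) := by
  obtain ⟨C, hC⟩ := h
  refine ⟨C, ?_, fun u hu => ?_⟩
  · have := (abs_nonneg _).trans (hC 1 le_rfl)
    simpa using this
  · refine (hC _ (Real.one_le_exp hu)).trans (le_of_eq ?_)
    rw [← Real.exp_mul, mul_comm u κ]

theorem good_mm : Good mm where
  meas := mm_meas
  bd := abs_mm_le
  up := fun σ0 h0 hf κ hκ => up_of κ (H353.mertens_of_free σ0 h0 hf κ hκ)
  c1 := fun ρ hz h0 h1 => core1' ρ hz (by linarith) h1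
  c2 := fun ρ hz hz' h0 h1 => core2 ρ hz hz' (by linarith) h1

theorem good_ll : Good ll where
  meas := ll_meas
  bd := abs_ll_le
  up := fun σ0 h0 hf κ hκ => up_of κ (liou_bound h0 hf κ hκ)
  c1 := fun ρ hz h0 h1 => core1L ρ hz h0 h1
  c2 := fun ρ hz hz' h0 h1 => core2L ρ hz hz' h0 h1

/-- a set of large values of a function on the window `[x, x log x]` -/
def Big (f g : ℝ → ℝ) (s x : ℝ) : Set ℝ :=
  {y : ℝ | y ∈ Icc x (x * Real.log x) ∧ g y ≤ s * f (Real.log y)}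

theorem big_fin (f g : ℝ → ℝ) (s x : ℝ) : volume (Big f g s x) ≠ ⊤ :=
  ((measure_mono (fun _ hx => hx.1)).trans_lt (measure_Icc_lt_top (a := x) (b := x * Real.log x))).ne

/-- the transfer to the variable `x` -/
theorem big_of {f : ℝ → ℝ} (g h : ℝ → ℝ) (lam : ℝ)
    (H : ∀ᶠ l : ℝ in atTop, ∀ s : ℝ, s = 1 ∨ s = -1 → Real.exp ((1 - lam) * l) ≤
      (volume {y : ℝ | y ∈ Icc (Real.exp l) (Real.exp (l + Real.log l)) ∧ h l * g y ≤ s * f (Real.log y)}).toReal)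
    (g' : ℝ → ℝ) (hg : ∀ᶠ x : ℝ in atTop, ∀ y ∈ Icc x (x * Real.log x), g' y ≤ h (Real.log x) * g y) :
    ∀ᶠ x : ℝ in atTop, ∀ s : ℝ, s = 1 ∨ s = -1 → x ^ (1 - lam) ≤ (volume (Big f g' s x)).toReal := by
  filter_upwards [Real.tendsto_log_atTop.eventually H, hg, eventually_ge_atTop (Real.exp 1)] with x h1 h2 h3 s hs
  have hx0 : 0 < x := (Real.exp_pos 1).trans_le h3
  have hl1 : 1 ≤ Real.log x := by rwa [Real.le_log_iff_exp_le hx0]
  have k1 := h1 s hs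
  have e1 : Real.exp ((1 - lam) * Real.log x) = x ^ (1 - lam) := by
    rw [Real.rpow_def_of_pos hx0]
    congr 1
    ring
  have e2 : Real.exp (Real.log x + Real.log (Real.log x)) = x * Real.log x := by
    rw [Real.exp_add, Real.exp_log hx0, Real.exp_log (by linarith)]
  rw [e1, Real.exp_log hx0, e2] at k1
  refine k1.trans (ENNReal.toReal_mono (big_fin _ _ _ _) (measure_mono ?_))
  rintro y ⟨hy1, hy2⟩
  exact ⟨hy1, (h2 y hy1).trans hy2⟩

/-- **Zeros to the right.** -/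
theorem big1 {f : ℝ → ℝ} (hf : Good f) (θ : ℝ) (hθ : 1 / 2 ≤ θ) (hz : ∃ s : ℂ, riemannZeta s = 0 ∧ θ < s.re)
    (lam : ℝ) (hlam : 0 < lam) :
    ∀ᶠ x : ℝ in atTop, ∀ s : ℝ, s = 1 ∨ s = -1 → x ^ (1 - lam) ≤ (volume (Big f (fun y => y ^ θ) s x)).toReal := by
  obtain ⟨σ0, h1, h2, h3, h4⟩ := supre hz
  obtain ⟨ρ, hρ, hρe⟩ := h4 (min (lam / 4) ((σ0 - θ) / 2)) (lt_min (by linarith) (by linarith))
  have hea := min_le_left (lam / 4) ((σ0 - θ) / 2)
  have heb := min_le_right (lam / 4) ((σ0 - θ) / 2)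
  have hρ1 : ρ.re < 1 := (zero_FF hρ).2
  have hρθ : θ < ρ.re := by linarith
  obtain ⟨K, hK, hup⟩ := hf.up σ0 (by linarith) h3 (σ0 + lam / 4) (by linarith)
  obtain ⟨c, hc, hcore⟩ := hf.c1 ρ hρ (by linarith) hρ1
  have H := large_of_core f hf.meas hf.bd ρ.re (σ0 + lam / 4) K (by linarith) hρ1.le (by linarith) hK hup
    (fun _ => 1) (Eventually.of_forall fun _ => le_rfl) c hc hcore lam (by linarith)
  set c' : ℝ := c / (4 * (4 * C0 * D1 + 1)) with hc'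
  have hc'0 : 0 < c' := by
    have := C0_nonneg
    have := D1_nonneg
    positivity
  refine big_of (fun y => y ^ ρ.re) (fun _ => c') lam ?_ _ ?_
  · filter_upwards [H] with l hl s hs
    simpa only [one_mul] using hl s hs
  · have t1 : ∀ᶠ y : ℝ in atTop, 1 / c' ≤ y ^ (ρ.re - θ) :=
      (tendsto_rpow_atTop (by linarith)).eventually_ge_atTop _
    obtain ⟨y₀, hy₀⟩ := eventually_atTop.1 t1
    filter_upwards [eventually_ge_atTop y₀, eventually_gt_atTop 0] with x g1 g2 y hy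
    have hy0 : 0 < y := g2.trans_le hy.1
    have g3 := hy₀ y (g1.trans hy.1)
    rw [div_le_iff₀ hc'0] at g3
    have e1 : y ^ ρ.re = y ^ θ * y ^ (ρ.re - θ) := by rw [← Real.rpow_add hy0]; congr 1; ring
    show y ^ θ ≤ c' * y ^ ρ.re
    rw [e1]
    have := Real.rpow_pos_of_pos hy0 θ
    nlinarith

/-- **The Riemann Hypothesis fails, or a zero is multiple.** -/
theorem big2 {f : ℝ → ℝ} (hf : Good f) (h : ¬ RHS) : ∃ c : ℝ, 0 < c ∧ ∀ lam : ℝ, 0 < lam →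
    ∀ᶠ x : ℝ in atTop, ∀ s : ℝ, s = 1 ∨ s = -1 →
      x ^ (1 - lam) ≤ (volume (Big f (fun y => c * (Real.sqrt y * Real.log y)) s x)).toReal := by
  by_cases hoff : ∃ s : ℂ, riemannZeta s = 0 ∧ 1 / 2 < s.re
  · obtain ⟨s0, hs0, hs1⟩ := hoff
    set θ := (1 / 2 + s0.re) / 2 with hθ
    have h1 : 1 / 2 < θ := by rw [hθ]; linarith
    have h2 : θ < s0.re := by rw [hθ]; linarith
    refine ⟨1, one_pos, fun lam hlam => ?_⟩
    have t1 : ∀ᶠ y : ℝ in atTop, Real.log y ≤ y ^ (θ - 1 / 2) := by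
      have h := (isLittleO_log_rpow_atTop (show 0 < θ - 1 / 2 by linarith)).bound (show (0:ℝ) < 1 by norm_num)
      filter_upwards [h, eventually_ge_atTop 1] with y hy hy1
      rw [one_mul, Real.norm_eq_abs, Real.norm_eq_abs, abs_of_nonneg (Real.log_nonneg hy1),
        abs_of_nonneg (Real.rpow_nonneg (by linarith) _)] at hy
      exact hy
    obtain ⟨y₀, hy₀⟩ := eventually_atTop.1 t1
    filter_upwards [big1 hf θ h1.le ⟨s0, hs0, h2⟩ lam hlam, eventually_ge_atTop y₀, eventually_gt_atTop 0]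
      with x g1 g2 g3 s hs
    refine (g1 s hs).trans (ENNReal.toReal_mono (big_fin _ _ _ _) (measure_mono ?_))
    rintro y ⟨hy1, hy2⟩
    refine ⟨hy1, le_trans ?_ hy2⟩
    have hy0 : 0 < y := g3.trans_le hy1.1
    have g4 := hy₀ y (g2.trans hy1.1)
    show 1 * (Real.sqrt y * Real.log y) ≤ y ^ θ
    have e1 : y ^ θ = Real.sqrt y * y ^ (θ - 1 / 2) := by
      rw [Real.sqrt_eq_rpow, ← Real.rpow_add hy0]; congr 1; ring
    rw [one_mul, e1]
    exact mul_le_mul_of_nonneg_left g4 (Real.sqrt_nonneg _)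
  · -- all zeros on the critical line, one is multiple
    push Not at hoff
    have hfree : ∀ s : ℂ, 1 / 2 < s.re → riemannZeta s ≠ 0 := fun s hs h => absurd (hoff s h) (not_le.2 hs)
    unfold RHS at h
    push Not at h
    obtain ⟨ρ, hρ, h0, h1, himp⟩ := h
    have hre : ρ.re = 1 / 2 := by
      have a1 := hoff ρ hρ
      have a2 := hoff (1 - ρ) (refl_zero ρ hρ h0 h1)
      simp at a2
      linarith
    have hder := himp hre
    obtain ⟨c, hc, hcore⟩ := hf.c2 ρ hρ hder hre.ge h1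
    set c' : ℝ := c / (4 * (4 * C0 * D1 + 1)) with hc'
    have hc'0 : 0 < c' := by
      have := C0_nonneg
      have := D1_nonneg
      positivity
    refine ⟨c' / 2, by positivity, fun lam hlam => ?_⟩
    obtain ⟨K, hK, hup⟩ := hf.up (1 / 2) le_rfl hfree (1 / 2 + lam / 2) (by linarith)
    have H := large_of_core f hf.meas hf.bd ρ.re (1 / 2 + lam / 2) K hre.ge h1.le (by linarith) hK hup
      (fun t => t) (eventually_ge_atTop 1) c hc hcore lam (by rw [hre]; linarith)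
    refine big_of (fun y => y ^ ρ.re) (fun l => c' * ct l) lam ?_ _ ?_
    · filter_upwards [H] with l hl s hs
      have := hl s hs
      simp only [mul_assoc c']
      exact this
    · filter_upwards [eventually_ge_atTop (Real.exp 1)] with x g1 y hy
      have hx0 : 0 < x := (Real.exp_pos 1).trans_le g1
      have hl1 : 1 ≤ Real.log x := by rwa [Real.le_log_iff_exp_le hx0]
      have hy0 : 0 < y := hx0.trans_le hy.1
      have h5 : Real.log y ≤ 2 * ct (Real.log x) := by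
        have h6 : Real.log y ≤ Real.log x + Real.log (Real.log x) := by
          rw [← Real.log_mul hx0.ne' (by linarith)]
          exact Real.log_le_log hy0 hy.2
        have h7 : Real.log (Real.log x) ≤ Real.log x := (Real.log_le_sub_one_of_pos (by linarith)).trans (by linarith)
        have h8 : 0 ≤ Real.log (Real.log x) := Real.log_nonneg hl1
        unfold ct
        linarith
      rw [hre, ← Real.sqrt_eq_rpow]
      have h6 := Real.sqrt_nonneg y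
      calc c' / 2 * (Real.sqrt y * Real.log y) ≤ c' / 2 * (Real.sqrt y * (2 * ct (Real.log x))) :=
            mul_le_mul_of_nonneg_left (mul_le_mul_of_nonneg_left h5 h6) (by positivity)
        _ = c' * ct (Real.log x) * Real.sqrt y := by ring

/-- **Exceptional sets.** -/
theorem exc {f : ℝ → ℝ} (hf : Good f) (s : ℝ) (hs : s = 1 ∨ s = -1) (lam : ℝ) (hlam : 0 < lam)
    (h : ∀ ε : ℝ, 0 < ε → ∃ᶠ x : ℝ in atTop, ∃ B : Set ℝ, volume B ≤ ENNReal.ofReal (x ^ (1 - lam)) ∧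
      ∀ y ∈ Icc x (x * Real.log x), y ∉ B → s * f (Real.log y) ≤ ε * (Real.sqrt y * Real.log y)) : RHS := by
  by_contra hcon
  obtain ⟨c, hc, hbig⟩ := big2 hf hcon
  have t1 : ∀ᶠ x : ℝ in atTop, x ^ (1 - lam) < x ^ (1 - lam / 2) := by
    filter_upwards [eventually_gt_atTop 1] with x hx
    exact Real.rpow_lt_rpow_of_exponent_lt hx (by linarith)
  obtain ⟨x, ⟨B, hB, hxB⟩, g1, g2, g3⟩ := ((h (c / 2) (by positivity)).and_eventually
    ((hbig (lam / 2) (by positivity)).and (t1.and (eventually_gt_atTop 1)))).exists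
  have hx0 : 0 < x := by linarith
  have k1 := g1 s hs
  have k2 : Big f (fun y => c * (Real.sqrt y * Real.log y)) s x ⊆ B := by
    rintro y ⟨hy1, hy2⟩
    by_contra hyB
    have hy0 : 1 < y := by linarith [hy1.1]
    have k3 := hxB y hy1 hyB
    have k4 : 0 < Real.sqrt y * Real.log y := mul_pos (Real.sqrt_pos.2 (by linarith)) (Real.log_pos hy0)
    have k5 : c * (Real.sqrt y * Real.log y) ≤ c / 2 * (Real.sqrt y * Real.log y) := le_trans hy2 k3
    nlinarith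
  have k6 : (volume (Big f (fun y => c * (Real.sqrt y * Real.log y)) s x)).toReal ≤ x ^ (1 - lam) := by
    have k7 := (measure_mono k2).trans hB
    have k8 := ENNReal.toReal_mono ENNReal.ofReal_ne_top k7
    rwa [ENNReal.toReal_ofReal (by positivity)] at k8
  linarith

/-- in particular for bounds that are `o(√y log y)` -/
theorem exc' {f : ℝ → ℝ} (hf : Good f) (G : ℝ → ℝ) (hG : ∀ ε : ℝ, 0 < ε → ∀ᶠ y : ℝ in atTop,
      G y ≤ ε * (Real.sqrt y * Real.log y)) (s : ℝ) (hs : s = 1 ∨ s = -1) (lam : ℝ) (hlam : 0 < lam)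
    (h : ∃ᶠ x : ℝ in atTop, ∃ B : Set ℝ, volume B ≤ ENNReal.ofReal (x ^ (1 - lam)) ∧
      ∀ y ∈ Icc x (x * Real.log x), y ∉ B → s * f (Real.log y) ≤ G y) : RHS := by
  refine exc hf s hs lam hlam fun ε hε => ?_
  obtain ⟨y₀, hy₀⟩ := eventually_atTop.1 (hG ε hε)
  refine (h.and_eventually (eventually_ge_atTop y₀)).mono ?_
  rintro x ⟨⟨B, hB, hx⟩, g1⟩
  exact ⟨B, hB, fun y hy hyB => (hx y hy hyB).trans (hy₀ y (g1.trans hy.1))⟩

/-- two-sided large values on short windows -/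
theorem short_big (a : ℕ → ℝ)
    (hmean : ∀ θ κ c : ℝ, 1 / 2 ≤ θ → 0 ≤ κ → 4 * θ * (1 - θ) * (κ + 1) ≤ 1 → 0 < c →
      (∃ s : ℂ, riemannZeta s = 0 ∧ θ < s.re) →
      ∀ᶠ x : ℝ in atTop, x ^ (1 + θ) < ∫ y in x..(x + c * x / Real.log x ^ κ), |SF a y|)
    (hup : ∀ σ0 : ℝ, 1 / 2 ≤ σ0 → (∀ s : ℂ, σ0 < s.re → riemannZeta s ≠ 0) → ∀ κ' : ℝ, σ0 < κ' →
      ∃ C : ℝ, ∀ y : ℝ, 1 ≤ y → |SF a y| ≤ C * y ^ κ')
    (θ κ c lam : ℝ) (hθ : 1 / 2 ≤ θ) (hκ : 0 ≤ κ) (hcond : 4 * θ * (1 - θ) * (κ + 1) ≤ 1)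
    (hc : 0 < c) (hlam : 0 < lam) (hz : ∃ s : ℂ, riemannZeta s = 0 ∧ θ < s.re) :
    ∀ᶠ x : ℝ in atTop, x ^ (1 - lam) ≤
      (volume {y : ℝ | y ∈ Icc x (x + c * x / Real.log x ^ κ) ∧ y ^ θ ≤ |SF a y|}).toReal := by
  obtain ⟨σ0, h1, h2, h3, h4⟩ := supre hz
  set e := min (lam / 4) ((σ0 - θ) / 2) with he
  have he0 : 0 < e := lt_min (by linarith) (by linarith)
  have hea : e ≤ lam / 4 := min_le_left _ _
  have heb : e ≤ (σ0 - θ) / 2 := min_le_right _ _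
  obtain ⟨ρ, hρ, hρe⟩ := h4 e he0
  have hcond' : 4 * (σ0 - e) * (1 - (σ0 - e)) * (κ + 1) ≤ 1 := by
    refine le_trans ?_ hcond
    refine mul_le_mul_of_nonneg_right ?_ (by linarith)
    have : θ ≤ σ0 - e := by linarith
    nlinarith
  have k1 := hmean (σ0 - e) κ c (by linarith) hκ hcond' hc ⟨ρ, hρ, hρe⟩
  obtain ⟨C, hC⟩ := hup σ0 (by linarith) h3 (σ0 + e) (by linarith)
  have hC0 : 0 ≤ C := by
    have := (abs_nonneg _).trans (hC 1 le_rfl)
    simpa using this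
  set K := 2 * ((C + 1) * (1 + c) ^ (σ0 + e)) with hK
  have hK0 : 0 < K := by
    rw [hK]
    have : 0 < (1 + c) ^ (σ0 + e) := by positivity
    positivity
  have t1 : ∀ᶠ X : ℝ in atTop, K ≤ X ^ (lam - 2 * e) :=
    (tendsto_rpow_atTop (by linarith)).eventually_ge_atTop _
  have t2 : ∀ᶠ X : ℝ in atTop, 2 * c * (1 + c) ^ θ ≤ X ^ (σ0 - e - θ) :=
    (tendsto_rpow_atTop (by linarith)).eventually_ge_atTop _
  filter_upwards [k1, t1, t2, eventually_ge_atTop 2, Real.tendsto_log_atTop.eventually_ge_atTop 1] with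
    X g1 g2 g3 g4 g5
  have hX : 0 < X := by linarith
  have hw0 : 0 ≤ c * X / Real.log X ^ κ := by positivity
  have hw1 : c * X / Real.log X ^ κ ≤ c * X :=
    div_le_self (by positivity) (Real.one_le_rpow g5 hκ)
  set Y := X + c * X / Real.log X ^ κ with hY
  have hYX : Y ≤ (1 + c) * X := by rw [hY]; linarith
  set S := (C + 1) * ((1 + c) * X) ^ (σ0 + e) with hS
  have hS0 : 0 < S := by
    rw [hS]
    have : 0 < ((1 + c) * X) ^ (σ0 + e) := by positivity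
    positivity
  have hgS : ∀ x ∈ Icc X Y, |SF a x| ≤ S := by
    intro x hx
    refine (hC x (by linarith [hx.1])).trans ?_
    rw [hS]
    refine mul_le_mul (by linarith) (Real.rpow_le_rpow (by linarith [hx.1]) (hx.2.trans hYX) (by linarith))
      (Real.rpow_nonneg (by linarith [hx.1]) _) (by linarith)
  have key := large_set (SF_meas a) (X := X) (Y := Y) (T := ((1 + c) * X) ^ θ) (S := S)
    (A := X ^ (1 + (σ0 - e))) (by linarith) hS0 (SF_II a X Y).abs hgS g1.le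
    (by
      rw [hY, add_sub_cancel_left, Real.mul_rpow (by linarith) hX.le]
      have e3 : X ^ (1 + θ) * (2 * c * (1 + c) ^ θ) ≤ X ^ (1 + (σ0 - e)) := by
        calc X ^ (1 + θ) * (2 * c * (1 + c) ^ θ) ≤ X ^ (1 + θ) * X ^ (σ0 - e - θ) := by gcongr
          _ = X ^ (1 + (σ0 - e)) := by rw [← Real.rpow_add hX]; congr 1; ring
      have e4 : (1 + c) ^ θ * X ^ θ * (c * X / Real.log X ^ κ) ≤ (1 + c) ^ θ * X ^ θ * (c * X) := by gcongr
      have e5 : (1 + c) ^ θ * X ^ θ * (c * X) = X ^ (1 + θ) * (2 * c * (1 + c) ^ θ) / 2 := by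
        rw [Real.rpow_add hX, Real.rpow_one]
        ring
      rw [e5] at e4
      linarith) (by positivity)
  refine le_trans ?_ (key.trans (ENNReal.toReal_mono ((measure_mono (fun _ hx => hx.1)).trans_lt
    (measure_Icc_lt_top (a := X) (b := Y))).ne (measure_mono ?_)))
  · rw [le_div_iff₀ (by positivity)]
    have e6 : 2 * S = K * X ^ (σ0 + e) := by
      rw [hS, hK, Real.mul_rpow (by linarith) hX.le]
      ring
    rw [e6]
    calc X ^ (1 - lam) * (K * X ^ (σ0 + e)) ≤ X ^ (1 - lam) * (X ^ (lam - 2 * e) * X ^ (σ0 + e)) := by gcongr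
      _ = X ^ (1 - lam) * X ^ (lam - 2 * e) * X ^ (σ0 + e) := by ring
      _ = X ^ (1 + (σ0 - e)) := by
          rw [← Real.rpow_add hX, ← Real.rpow_add hX]
          congr 1
          ring
  · rintro y ⟨hy1, hy2⟩
    refine ⟨hy1, le_trans ?_ hy2⟩
    exact Real.rpow_le_rpow (by linarith [hy1.1]) (hy1.2.trans hYX) (by linarith)

theorem short_M (θ κ c lam : ℝ) (hθ : 1 / 2 ≤ θ) (hκ : 0 ≤ κ) (hcond : 4 * θ * (1 - θ) * (κ + 1) ≤ 1)
    (hc : 0 < c) (hlam : 0 < lam) (hz : ∃ s : ℂ, riemannZeta s = 0 ∧ θ < s.re) :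
    ∀ᶠ x : ℝ in atTop, x ^ (1 - lam) ≤
      (volume {y : ℝ | y ∈ Icc x (x + c * x / Real.log x ^ κ) ∧ y ^ θ ≤ |SF muR y|}).toReal := by
  refine short_big muR (fun θ κ c h1 h2 h3 h4 h5 => ?_) (fun σ0 h0 hf κ' hκ' => H353.mertens_of_free σ0 h0 hf κ' hκ')
    θ κ c lam hθ hκ hcond hc hlam hz
  have h := Pool.Agent.W190.moebius_window (δ := 0) h2 h4 one_pos h1 h3 h5
  filter_upwards [h] with x hx
  have := hx 0 (by simp)
  simp only [Polynomial.eval_zero, sub_zero] at this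
  exact this

theorem short_L (θ κ c lam : ℝ) (hθ : 1 / 2 ≤ θ) (hκ : 0 ≤ κ) (hcond : 4 * θ * (1 - θ) * (κ + 1) ≤ 1)
    (hc : 0 < c) (hlam : 0 < lam) (hz : ∃ s : ℂ, riemannZeta s = 0 ∧ θ < s.re) :
    ∀ᶠ x : ℝ in atTop, x ^ (1 - lam) ≤
      (volume {y : ℝ | y ∈ Icc x (x + c * x / Real.log x ^ κ) ∧ y ^ θ ≤ |SF laR y|}).toReal := by
  refine short_big laR (fun θ κ c h1 h2 h3 h4 h5 => ?_) (fun σ0 h0 hf κ' hκ' => liou_bound h0 hf κ' hκ')
    θ κ c lam hθ hκ hcond hc hlam hz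
  obtain ⟨ρ, hρ0, hρθ⟩ := h5
  obtain ⟨hF, hρ1⟩ := zero_FF hρ0
  obtain ⟨σ, α, e1, e2, e3, e4, e5⟩ := Pool.Agent.W190.params h2 h1 h3 hρθ hρ1
  have h : ∀ᶠ x : ℝ in atTop, ∀ P : Polynomial ℝ, (P.natDegree : ℝ) ≤ Real.log x ^ (0:ℝ) →
      x ^ (1 + θ) < ∫ y in x..(x + c * x / Real.log x ^ κ), |SF laR y - P.eval y| := by
    refine Pool.Agent.W190.upgrade (β := ρ.re - (ρ.re - θ) / 2) (by linarith) ?_
    refine Pool.Agent.W190.to_x laR h2 h4 (fun u => ⌊u ^ (0:ℝ)⌋₊) ?_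
    refine win_of_op (fun u => ⌊u ^ (0:ℝ)⌋₊) (fun ε hε => ?_) h2 h4 _ (by linarith)
    exact liou_op (θ := (σ + ρ.re) / 2) (by linarith) (by linarith) h2 h4 e3 e4 e5 ρ hF (by linarith)
      (fun u => ⌊u ^ (0:ℝ)⌋₊) one_pos (Pool.Agent.W190.floor_ok 0) ε hε
  filter_upwards [h] with x hx
  have := hx 0 (by simp)
  simpa using this

end

end Pool.Agent.W5h38.ML
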