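import Pool.Agent.H313R3.TK.J

/-!
# From one-sided averages to large values on large sets
-/

set_option autoImplicit false
set_option maxHeartbeats 4000000

open Complex MeasureTheory Filter Topology Set
open H313.TK

namespace Pool.Agent.W5h38.ML

noncomputable section

/-- restriction of the averages to a window -/
theorem win_f (f : ℝ → ℝ) (hf : Measurable f) (hfb : ∀ u, |f u| ≤ Real.exp u)
    (β : ℝ) (hβ : 1 / 2 ≤ β) (Lf : ℝ → ℝ) (hL : ∀ᶠ t in atTop, 1 ≤ Lf t) (c : ℝ) (hc : 0 < c)
    (hcore : ∀ᶠ t : ℝ in atTop, ∀ s : ℝ, s = 1 ∨ s = -1 →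
      c * (Lf t * Real.exp (β * t)) ≤ ∫ v : ℝ, max (s * f (t - v)) 0 * kp v) :
    ∀ᶠ l : ℝ in atTop, ∀ s : ℝ, s = 1 ∨ s = -1 →
      c / 2 * (Lf (ct l) * Real.exp (β * ct l)) ≤
        ∫ v in Icc (-(Real.log l / 2)) (Real.log l / 2), max (s * f (ct l - v)) 0 * kp v := by
  have hC0 := C0_nonneg
  have hD1 := D1_nonneg
  set B : ℝ := 8 * C0 * D1 with hB
  have hB0 : 0 ≤ B := by positivity
  have hlim : ∀ᶠ l : ℝ in atTop, B * (l * Real.exp (-(l / 4))) ≤ c / 2 := by
    have h1 : Tendsto (fun l : ℝ => l * Real.exp (-(l / 4))) atTop (𝓝 0) := by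
      have h2 : Tendsto (fun l : ℝ => l / 4) atTop atTop := tendsto_id.atTop_div_const (by norm_num)
      have h3 := (Real.tendsto_pow_mul_exp_neg_atTop_nhds_zero 1).comp h2
      have h4 : Tendsto (fun l : ℝ => 4 * ((l / 4) ^ 1 * Real.exp (-(l / 4)))) atTop (𝓝 (4 * 0)) := h3.const_mul 4
      rw [mul_zero] at h4
      refine h4.congr fun l => ?_
      ring
    have h5 : Tendsto (fun l : ℝ => B * (l * Real.exp (-(l / 4)))) atTop (𝓝 (B * 0)) := h1.const_mul B
    rw [mul_zero] at h5
    exact h5.eventually (ge_mem_nhds (by positivity))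
  filter_upwards [ct_tendsto.eventually hcore, ct_tendsto.eventually hL, hlim, eventually_ge_atTop (1:ℝ)]
    with l h1 h2 h3 h4 s hs
  set a : ℝ := Real.log l / 2 with ha
  have hl0 : 0 < l := by linarith
  have ha0 : 0 ≤ a := by rw [ha]; have := Real.log_nonneg h4; positivity
  have k1 := h1 s hs
  have k2 := tail (fun u => max (s * f u) 0) (by fun_prop) (fun u => le_max_right _ _)
    (fun u => (le_abs_self _).trans ((part_le s hs _).trans (hfb u))) (ct l) a ha0
  have k3 : Real.exp (ct l + a) * W (-a) ≤ l * Real.exp (l / 4) := by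
    have e1 : Real.exp (ct l + a) = l * Real.exp l := by
      have : ct l + a = Real.log l + l := by unfold ct; rw [ha]; ring
      rw [this, Real.exp_add, Real.exp_log hl0]
    have e2 : W (-a) ≤ Real.exp (-(3 / 4 * l)) := by
      unfold W
      refine Real.exp_le_exp.2 ?_
      rw [max_eq_right (by linarith), abs_neg, abs_of_nonneg ha0]
      have e3 : 2 * a = Real.log l := by rw [ha]; ring
      rw [e3, Real.exp_log hl0]
      have := Real.pi_gt_three
      nlinarith
    rw [e1]
    calc l * Real.exp l * W (-a) ≤ l * Real.exp l * Real.exp (-(3 / 4 * l)) :=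
          mul_le_mul_of_nonneg_left e2 (by positivity)
      _ = l * (Real.exp l * Real.exp (-(3 / 4 * l))) := by ring
      _ = _ := by rw [← Real.exp_add]; congr 2; ring
  have k4 : B * (Real.exp (ct l + a) * W (-a)) ≤ c / 2 * Real.exp (β * ct l) := by
    have e1 : B * (Real.exp (ct l + a) * W (-a)) ≤ B * (l * Real.exp (l / 4)) := mul_le_mul_of_nonneg_left k3 hB0
    have e2 : B * (l * Real.exp (l / 4)) = (B * (l * Real.exp (-(l / 4)))) * Real.exp (l / 2) := by
      have : Real.exp (l / 4) = Real.exp (-(l / 4)) * Real.exp (l / 2) := by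
        rw [← Real.exp_add]; congr 1; ring
      rw [this]
      ring
    have e3 : Real.exp (l / 2) ≤ Real.exp (β * ct l) := by
      refine Real.exp_le_exp.2 ?_
      have : l ≤ ct l := by unfold ct; linarith
      nlinarith
    calc B * (Real.exp (ct l + a) * W (-a)) ≤ (B * (l * Real.exp (-(l / 4)))) * Real.exp (l / 2) := by rw [← e2]; exact e1
      _ ≤ c / 2 * Real.exp (l / 2) := mul_le_mul_of_nonneg_right h3 (Real.exp_pos _).le
      _ ≤ _ := mul_le_mul_of_nonneg_left e3 (by positivity)
  have k5 : Real.exp (β * ct l) ≤ Lf (ct l) * Real.exp (β * ct l) := le_mul_of_one_le_left (Real.exp_pos _).le h2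
  have k6 := mul_le_mul_of_nonneg_left k5 (by positivity : 0 ≤ c / 2)
  linarith

/-- the logarithm contracts measures on `[x, ∞)` -/
theorem log_meas (x : ℝ) (hx : 0 < x) (E : Set ℝ) (hE : ∀ y ∈ E, x ≤ y) (U : Set ℝ)
    (hU : ∀ u ∈ U, Real.exp u ∈ E) : volume U ≤ ENNReal.ofReal (1 / x) * volume E := by
  have h1 : U ⊆ Real.log '' E := fun u hu => ⟨Real.exp u, hU u hu, Real.log_exp u⟩
  have h2 : LipschitzOnWith (Real.toNNReal (1 / x)) Real.log E := by
    refine LipschitzOnWith.mono (t := Ici x) ?_ hE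
    refine Convex.lipschitzOnWith_of_nnnorm_deriv_le (s := Ici x) ?_ ?_ (convex_Ici x)
    · intro y hy
      exact Real.differentiableAt_log (hx.trans_le hy).ne'
    · intro y hy
      have hy0 : 0 < y := hx.trans_le hy
      rw [Real.deriv_log, ← NNReal.coe_le_coe, coe_nnnorm, Real.coe_toNNReal _ (by positivity), Real.norm_eq_abs,
        abs_of_pos (inv_pos.2 hy0), ← one_div]
      exact one_div_le_one_div_of_le hx hy
  have h3 := h2.hausdorffMeasure_image_le (d := 1) zero_le_one
  rw [hausdorffMeasure_real] at h3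
  refine (measure_mono h1).trans (h3.trans ?_)
  rw [ENNReal.rpow_one]
  rfl

/-- **From averages to large sets.** -/
theorem large_of_core (f : ℝ → ℝ) (hf : Measurable f) (hfb : ∀ u, |f u| ≤ Real.exp u)
    (β κ K : ℝ) (hβ : 1 / 2 ≤ β) (hβ1 : β ≤ 1) (hκ0 : 0 ≤ κ) (hK : 0 ≤ K)
    (hup : ∀ u : ℝ, 0 ≤ u → |f u| ≤ K * Real.exp (κ * u))
    (Lf : ℝ → ℝ) (hL : ∀ᶠ t in atTop, 1 ≤ Lf t) (c : ℝ) (hc : 0 < c)
    (hcore : ∀ᶠ t : ℝ in atTop, ∀ s : ℝ, s = 1 ∨ s = -1 →
      c * (Lf t * Real.exp (β * t)) ≤ ∫ v : ℝ, max (s * f (t - v)) 0 * kp v)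
    (lam : ℝ) (hlam : κ - β < lam) :
    ∀ᶠ l : ℝ in atTop, ∀ s : ℝ, s = 1 ∨ s = -1 → Real.exp ((1 - lam) * l) ≤
      (volume {y : ℝ | y ∈ Icc (Real.exp l) (Real.exp (l + Real.log l)) ∧
        c / (4 * (4 * C0 * D1 + 1)) * (Lf (ct l) * y ^ β) ≤ s * f (Real.log y)}).toReal := by
  have hC0 := C0_nonneg
  have hD1 := D1_nonneg
  obtain ⟨hmi, hmass⟩ := mass_le β (by linarith) (by linarith)
  set c' : ℝ := c / (4 * (4 * C0 * D1 + 1)) with hc'
  have hc'0 : 0 < c' := by positivity
  set M : ℝ := 4 * (C0 + 1) * (K + 1) with hM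
  have hM0 : 0 < M := by positivity
  have hlim : ∀ᶠ l : ℝ in atTop, 4 * M / c ≤ Real.exp ((lam - (κ - β)) * l) / l ^ κ :=
    (tendsto_exp_mul_div_rpow_atTop κ (lam - (κ - β)) (by linarith)).eventually_ge_atTop _
  filter_upwards [win_f f hf hfb β hβ Lf hL c hc hcore, ct_tendsto.eventually hL, hlim, eventually_ge_atTop (1:ℝ)]
    with l h1 h2 h3 h4 s hs
  have hl0 : 0 < l := by linarith
  have hlog0 : 0 ≤ Real.log l := Real.log_nonneg h4
  set a : ℝ := Real.log l / 2 with ha
  have ha0 : 0 ≤ a := by positivity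
  have k1 := h1 s hs
  set E : Set ℝ := {y : ℝ | y ∈ Icc (Real.exp l) (Real.exp (l + Real.log l)) ∧
        c' * (Lf (ct l) * y ^ β) ≤ s * f (Real.log y)} with hE
  set V : Set ℝ := {v : ℝ | v ∈ Icc (-a) a ∧ c' * (Lf (ct l) * Real.exp (β * (ct l - v))) ≤ s * f (ct l - v)} with hV
  have hVm : MeasurableSet V := by
    have m1 : Measurable fun v : ℝ => c' * (Lf (ct l) * Real.exp (β * (ct l - v))) := by fun_prop
    have m2 : Measurable fun v : ℝ => s * f (ct l - v) := by fun_prop
    exact measurableSet_Icc.inter (measurableSet_le m1 m2)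
  have hVfin : volume V ≠ ⊤ := ((measure_mono (fun x hx => hx.1)).trans_lt
    (measure_Icc_lt_top (a := -a) (b := a))).ne
  have hEfin : volume E ≠ ⊤ := ((measure_mono (fun x hx => hx.1)).trans_lt
    (measure_Icc_lt_top (a := Real.exp l) (b := Real.exp (l + Real.log l)))).ne
  -- comparison of the measures
  have hmeas : (volume V).toReal ≤ Real.exp (-l) * (volume E).toReal := by
    have e1 : volume V = volume ((fun u : ℝ => ct l - u) ⁻¹' V) := by
      exact (Measure.measurePreserving_sub_left volume (ct l)).measure_preimage hVm.nullMeasurableSet |>.symm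
    have e2 := log_meas (Real.exp l) (Real.exp_pos l) E (fun y hy => hy.1.1) ((fun u : ℝ => ct l - u) ⁻¹' V) (by
      intro u hu
      have hu1 : ct l - u ∈ V := hu
      rw [hV] at hu1
      obtain ⟨⟨b1, b2⟩, b3⟩ := hu1
      rw [show ct l - (ct l - u) = u by ring] at b3
      have b4 : ct l = l + a := by unfold ct; rw [ha]
      refine ⟨⟨Real.exp_le_exp.2 (by linarith), Real.exp_le_exp.2 (by rw [ha] at b1 b2 b4; linarith)⟩, ?_⟩
      rw [Real.log_exp, ← Real.exp_mul, mul_comm u β]
      exact b3)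
    rw [e1]
    refine (ENNReal.toReal_mono (ENNReal.mul_ne_top ENNReal.ofReal_ne_top hEfin) e2).trans (le_of_eq ?_)
    rw [ENNReal.toReal_mul, ENNReal.toReal_ofReal (by positivity), one_div, ← Real.exp_neg]
  -- the pointwise bound
  set δ : ℝ := c' * Lf (ct l) with hδ
  have hδ0 : 0 < δ := by positivity
  set S : ℝ := 4 * (C0 + 1) * ((K + 1) * Real.exp (κ * (l + Real.log l))) with hS
  have hS0 : 0 < S := by positivity
  have hi := avg_int (fun u => max (s * f u) 0) (by fun_prop) (fun u => (part_le s hs _).trans (hfb u)) (ct l)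
  have hVi : Integrable (V.indicator (fun _ => S)) := (integrable_indicator_iff hVm).2 (integrableOn_const hVfin)
  have k2 : ∫ v in Icc (-a) a, max (s * f (ct l - v)) 0 * kp v ≤
      ∫ v in Icc (-a) a, (δ * Real.exp (β * ct l) * (Real.exp (-(β * v)) * kp v) + V.indicator (fun _ => S) v) := by
    refine setIntegral_mono_on hi.integrableOn (((hmi.const_mul _).add hVi).integrableOn) measurableSet_Icc fun v hv => ?_
    have g1 : 0 ≤ δ * Real.exp (β * ct l) * (Real.exp (-(β * v)) * kp v) := by
      have := kp_nonneg v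
      positivity
    by_cases hvV : v ∈ V
    · rw [indicator_of_mem hvV]
      have g2 : 0 ≤ ct l - v := by
        have : ct l = l + a := by unfold ct; rw [ha]
        linarith [hv.2]
      have g3 : max (s * f (ct l - v)) 0 ≤ (K + 1) * Real.exp (κ * (l + Real.log l)) := by
        refine (le_abs_self _).trans ((part_le s hs _).trans ((hup _ g2).trans ?_))
        refine mul_le_mul (by linarith) (Real.exp_le_exp.2 ?_) (Real.exp_pos _).le (by linarith)
        refine mul_le_mul_of_nonneg_left ?_ hκ0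
        unfold ct
        linarith [hv.1]
      have g4 : kp v ≤ 4 * (C0 + 1) := by
        have g5 := W_decay v
        have g6 : W v ≤ 4 := by
          have g7 : W v * 1 ≤ W v * Real.exp (2 * |v|) :=
            mul_le_mul_of_nonneg_left (Real.one_le_exp (by positivity)) (W_pos v).le
          have g8 : Real.exp (-|v|) ≤ 1 := Real.exp_le_one_iff.2 (neg_nonpos.2 (abs_nonneg v))
          linarith
        have g9 := (kp_bounds v).2
        nlinarith [W_pos v]
      have g5 : max (s * f (ct l - v)) 0 * kp v ≤ (K + 1) * Real.exp (κ * (l + Real.log l)) * (4 * (C0 + 1)) :=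
        mul_le_mul g3 g4 (kp_nonneg v) (by positivity)
      have g6 : (K + 1) * Real.exp (κ * (l + Real.log l)) * (4 * (C0 + 1)) = S := by rw [hS]; ring
      linarith
    · rw [indicator_of_notMem hvV, add_zero]
      have h5 : max (s * f (ct l - v)) 0 ≤ δ * Real.exp (β * (ct l - v)) := by
        refine max_le ?_ (by positivity)
        by_contra hcon
        push Not at hcon
        refine hvV ⟨hv, ?_⟩
        refine le_trans (le_of_eq ?_) hcon.le
        rw [hδ]
        ring
      calc max (s * f (ct l - v)) 0 * kp v ≤ δ * Real.exp (β * (ct l - v)) * kp v :=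
            mul_le_mul_of_nonneg_right h5 (kp_nonneg v)
        _ = δ * (Real.exp (β * ct l) * Real.exp (-(β * v))) * kp v := by
            rw [← Real.exp_add]; congr 3; ring
        _ = _ := by ring
  have k3 : ∫ v in Icc (-a) a, (δ * Real.exp (β * ct l) * (Real.exp (-(β * v)) * kp v) + V.indicator (fun _ => S) v) ≤
      δ * Real.exp (β * ct l) * (4 * C0 * D1) + S * (volume V).toReal := by
    rw [integral_add ((hmi.const_mul _).integrableOn) hVi.integrableOn, integral_const_mul]
    refine add_le_add (mul_le_mul_of_nonneg_left ?_ (by positivity)) ?_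
    · refine (setIntegral_le_integral hmi (ae_of_all _ fun v => ?_)).trans hmass
      exact mul_nonneg (Real.exp_pos _).le (kp_nonneg v)
    · refine (setIntegral_le_integral hVi (ae_of_all _ fun v => ?_)).trans ?_
      · exact indicator_nonneg (fun _ _ => hS0.le) v
      · rw [integral_indicator hVm, setIntegral_const, smul_eq_mul, mul_comm, Measure.real]
  have k4 := (k1.trans k2).trans k3
  have k5 : δ * Real.exp (β * ct l) * (4 * C0 * D1) ≤ c / 4 * (Lf (ct l) * Real.exp (β * ct l)) := by
    have e1 : δ * Real.exp (β * ct l) * (4 * C0 * D1) =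
        c / 4 * (Lf (ct l) * Real.exp (β * ct l)) * ((4 * C0 * D1) / (4 * C0 * D1 + 1)) := by
      rw [hδ, hc']
      field_simp
    rw [e1]
    refine mul_le_of_le_one_right (by positivity) ?_
    rw [div_le_one (by positivity)]
    linarith
  have k6 : Real.exp (β * l) ≤ Lf (ct l) * Real.exp (β * ct l) := by
    have e1 : Real.exp (β * l) ≤ Real.exp (β * ct l) := by
      refine Real.exp_le_exp.2 (mul_le_mul_of_nonneg_left ?_ (by linarith))
      unfold ct
      linarith
    have e2 : Real.exp (β * ct l) ≤ Lf (ct l) * Real.exp (β * ct l) := le_mul_of_one_le_left (Real.exp_pos _).le h2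
    exact e1.trans e2
  have k7 : c / 4 * Real.exp (β * l) ≤ S * (Real.exp (-l) * (volume E).toReal) := by
    have e1 := mul_le_mul_of_nonneg_left k6 (by positivity : 0 ≤ c / 4)
    have e2 := mul_le_mul_of_nonneg_left hmeas hS0.le
    linarith
  have k8 : S = M * (Real.exp (κ * l) * l ^ κ) := by
    rw [hS, hM]
    have : Real.exp (κ * (l + Real.log l)) = Real.exp (κ * l) * l ^ κ := by
      rw [Real.rpow_def_of_pos hl0, ← Real.exp_add]
      congr 1
      ring
    rw [this]
    ring
  have hlk : 0 < l ^ κ := Real.rpow_pos_of_pos hl0 _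
  rw [le_div_iff₀ hlk, div_mul_eq_mul_div, div_le_iff₀ hc] at h3
  -- conclusion
  have k9 : M * (Real.exp (κ * l) * l ^ κ) * (Real.exp (-l) * Real.exp ((1 - lam) * l)) ≤ c / 4 * Real.exp (β * l) := by
    have e1 : Real.exp (κ * l) * (Real.exp (-l) * Real.exp ((1 - lam) * l)) * Real.exp ((lam - (κ - β)) * l) =
        Real.exp (β * l) := by
      rw [← Real.exp_add, ← Real.exp_add, ← Real.exp_add]
      congr 1
      ring
    rw [← e1]
    have e2 : 0 < Real.exp (κ * l) * (Real.exp (-l) * Real.exp ((1 - lam) * l)) := by positivity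
    nlinarith
  rw [k8] at k7
  have k10 := k9.trans k7
  have e3 : 0 < M * (Real.exp (κ * l) * l ^ κ) * Real.exp (-l) := by positivity
  have k11 : M * (Real.exp (κ * l) * l ^ κ) * Real.exp (-l) * Real.exp ((1 - lam) * l) ≤
      M * (Real.exp (κ * l) * l ^ κ) * Real.exp (-l) * (volume E).toReal := by
    calc _ = M * (Real.exp (κ * l) * l ^ κ) * (Real.exp (-l) * Real.exp ((1 - lam) * l)) := by ring
      _ ≤ _ := k10
      _ = _ := by ring
  exact le_of_mul_le_mul_left k11 e3

end

end Pool.Agent.W5h38.ML
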