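import Pool.Agent.W5h38.ML.A
import Pool.Agent.R303.SW.Lsh

/-!
# The Liouville function against the kernel
-/

set_option autoImplicit false
set_option maxHeartbeats 4000000

open Complex MeasureTheory Filter Topology Set
open H313.TK
open Pool.Agent.W190 (SF)
open Pool.Agent.R303.SW (laR laR_zero laR_eq laR_abs)

namespace Pool.Agent.W5h38.ML

noncomputable section

/-- the summatory function of the Liouville function -/
def LL (y : ℝ) : ℝ := ∑ n ∈ Finset.Icc 1 ⌊y⌋₊, ((ArithmeticFunction.liouville n : ℤ) : ℝ)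

/-- the same, exponential scale -/
def ll (u : ℝ) : ℝ := LL (Real.exp u)

theorem LL_eq (y : ℝ) : LL y = SF laR y := rfl

theorem LL_meas : Measurable LL := by
  have e : LL = (fun m : ℕ => ∑ k ∈ Finset.Icc 1 m, ((ArithmeticFunction.liouville k : ℤ) : ℝ)) ∘ (fun y : ℝ => ⌊y⌋₊) := rfl
  rw [e]
  exact (measurable_of_countable _).comp Nat.measurable_floor

theorem ll_meas : Measurable ll := LL_meas.comp Real.measurable_exp

theorem abs_LL_le {y : ℝ} (h : 0 ≤ y) : |LL y| ≤ y := by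
  unfold LL
  refine (Finset.abs_sum_le_sum_abs _ _).trans ?_
  refine (Finset.sum_le_sum (fun n _ => laR_abs n)).trans ?_
  rw [Finset.sum_const, Nat.card_Icc]
  simp
  exact Nat.floor_le h

theorem abs_ll_le (u : ℝ) : |ll u| ≤ Real.exp u := abs_LL_le (Real.exp_pos u).le

/-- `L(y) = ∑ M(y/m²)` -/
theorem LL_hasSum (y : ℝ) (hy : 0 ≤ y) :
    HasSum (fun m : ℕ => MM (y / ((m : ℝ) + 1) ^ 2)) (LL y) := by
  set N := ⌊y⌋₊ with hN
  have hz : ∀ m ∉ Finset.range N, MM (y / ((m : ℝ) + 1) ^ 2) = 0 := by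
    intro m hm
    rw [Finset.mem_range, not_lt] at hm
    apply MM_lt_one
    rw [div_lt_one (by positivity)]
    have h1 := Nat.lt_floor_add_one y
    have h2 : (⌊y⌋₊ : ℝ) ≤ m := by exact_mod_cast hm
    have h3 : (0:ℝ) ≤ m := Nat.cast_nonneg m
    nlinarith
  have h1 : HasSum (fun m : ℕ => MM (y / ((m : ℝ) + 1) ^ 2)) (∑ m ∈ Finset.range N, MM (y / ((m : ℝ) + 1) ^ 2)) :=
    hasSum_sum_of_ne_finset_zero hz
  have h2 : ∑ m ∈ Finset.range N, MM (y / ((m : ℝ) + 1) ^ 2) = LL y := by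
    have h3 := Pool.Agent.H534R2.BH.lam_sum N (fun _ => 1)
    simp only [mul_one] at h3
    have h4 : ((LL y : ℝ) : ℂ) = ((∑ m ∈ Finset.Icc 1 N, ∑ l ∈ Finset.Icc 1 (N / m ^ 2),
        ((ArithmeticFunction.moebius l : ℤ) : ℝ) : ℝ) : ℂ) := by
      have e : ((LL y : ℝ) : ℂ) = ∑ n ∈ Finset.Icc 1 N, (-1 : ℂ) ^ ArithmeticFunction.cardFactors n := by
        unfold LL
        push_cast
        refine Finset.sum_congr rfl fun n hn => ?_
        have hn0 : n ≠ 0 := by rw [Finset.mem_Icc] at hn; omega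
        have := laR_eq hn0
        unfold laR at this
        have h5 : (((ArithmeticFunction.liouville n : ℤ) : ℝ) : ℂ) = (((-1) ^ ArithmeticFunction.cardFactors n : ℝ) : ℂ) := by
          rw [this]
        push_cast at h5
        exact h5
      rw [e, h3]
      push_cast
      rfl
    have h5 := Complex.ofReal_injective h4
    have h8 : ∑ m ∈ Finset.range N, MM (y / ((m : ℝ) + 1) ^ 2) =
        ∑ m ∈ Finset.Ico 0 N, (fun m : ℕ => MM (y / (m : ℝ) ^ 2)) (m + 1) := by
      rw [Finset.range_eq_Ico]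
      refine Finset.sum_congr rfl fun m _ => ?_
      simp only
      push_cast
      rfl
    rw [h5, h8, Finset.sum_Ico_add' (fun m : ℕ => MM (y / (m : ℝ) ^ 2)) 0 N 1]
    have h7 : Finset.Ico (0 + 1) (N + 1) = Finset.Icc 1 N := by
      ext k
      simp only [Finset.mem_Ico, Finset.mem_Icc]
      omega
    rw [h7]
    refine Finset.sum_congr rfl fun m hm => ?_
    unfold MM
    have h4 : ⌊y / (m : ℝ) ^ 2⌋₊ = N / m ^ 2 := by
      have := Nat.floor_div_natCast y (m ^ 2)
      push_cast at this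
      exact this
    rw [h4]
  rwa [h2] at h1

/-- **The Liouville identity.** -/
theorem liou {g : ℝ → ℂ} (hg : QQ g) (hD : DK (Sg g)) (t : ℝ) :
    HasSum (fun m : ℕ => ∫ z in Iic (t - 2 * Real.log ((m : ℝ) + 1)), g z) (∫ v : ℝ, (ll (t - v) : ℂ) * Sg g v) := by
  obtain ⟨B, hB, hb⟩ := hD.bd
  have hc := hD.cont
  have hm := mm_meas
  set F : ℕ → ℝ → ℂ := fun m v => (mm (t - 2 * Real.log ((m : ℝ) + 1) - v) : ℂ) * Sg g v with hF
  have hFb : ∀ m : ℕ, ∀ v : ℝ, ‖F m v‖ ≤ 4 * B * Real.exp t * (1 / ((m : ℝ) + 1) ^ 2) * Real.exp (-(1 * |v|)) := by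
    intro m v
    simp only [hF]
    rw [norm_mul, Complex.norm_real, Real.norm_eq_abs]
    have e1 : Real.exp (t - 2 * Real.log ((m : ℝ) + 1) - v) = (1 / ((m : ℝ) + 1) ^ 2) * Real.exp (t - v) := by
      have : t - 2 * Real.log ((m : ℝ) + 1) - v = -(2 * Real.log ((m : ℝ) + 1)) + (t - v) := by ring
      rw [this, Real.exp_add]
      congr 1
      rw [Real.exp_neg, show 2 * Real.log ((m : ℝ) + 1) = Real.log ((m : ℝ) + 1) + Real.log ((m : ℝ) + 1) by ring,
        Real.exp_add, Real.exp_log (by positivity), one_div, sq]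
    calc |mm (t - 2 * Real.log ((m : ℝ) + 1) - v)| * ‖Sg g v‖ ≤
          Real.exp (t - 2 * Real.log ((m : ℝ) + 1) - v) * (B * W v) :=
          mul_le_mul (abs_mm_le _) (hb v) (norm_nonneg _) (Real.exp_pos _).le
      _ = B * (1 / ((m : ℝ) + 1) ^ 2) * (Real.exp (t - v) * W v) := by rw [e1]; ring
      _ ≤ B * (1 / ((m : ℝ) + 1) ^ 2) * (4 * Real.exp t * Real.exp (-(1 * |v|))) :=
          mul_le_mul_of_nonneg_left (kpW t v) (by positivity)
      _ = _ := by ring
  have hFm : ∀ m, AEStronglyMeasurable (F m) volume := fun m => by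
    simp only [hF]
    exact (by fun_prop : Measurable fun v => (mm (t - 2 * Real.log ((m : ℝ) + 1) - v) : ℂ) * Sg g v).aestronglyMeasurable
  have hdom : ∀ m : ℕ, Integrable (fun v : ℝ => 4 * B * Real.exp t * (1 / ((m : ℝ) + 1) ^ 2) * Real.exp (-(1 * |v|))) :=
    fun m => (int_exp_abs 1 one_pos).const_mul _
  have hFi : ∀ m, Integrable (F m) := fun m => (hdom m).mono' (hFm m) (ae_of_all _ (hFb m))
  have hFs : Summable (fun m => ∫ z, ‖F m z‖) := by
    refine Summable.of_nonneg_of_le (fun m => integral_nonneg fun z => norm_nonneg _) (fun m => ?_)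
      (sum_sq.mul_left (4 * B * Real.exp t * D1))
    have h1 := integral_mono (hFi m).norm (hdom m) (hFb m)
    rw [integral_const_mul] at h1
    refine h1.trans (le_of_eq ?_)
    unfold D1
    ring
  have key := hasSum_integral_of_summable_integral_norm hFi hFs
  have e1 : ∫ v, ∑' m, F m v = ∫ v : ℝ, (ll (t - v) : ℂ) * Sg g v := by
    refine integral_congr_ae (ae_of_all _ fun v => ?_)
    simp only [hF]
    rw [tsum_mul_right]
    congr 1
    have h5 := LL_hasSum (Real.exp (t - v)) (Real.exp_pos _).le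
    have h6 : ∀ m : ℕ, mm (t - 2 * Real.log ((m : ℝ) + 1) - v) = MM (Real.exp (t - v) / ((m : ℝ) + 1) ^ 2) := by
      intro m
      unfold mm
      rw [show t - 2 * Real.log ((m : ℝ) + 1) - v = t - v - (Real.log ((m : ℝ) + 1) + Real.log ((m : ℝ) + 1)) by ring,
        Real.exp_sub, Real.exp_add, Real.exp_log (by positivity), sq]
    simp_rw [h6]
    rw [← Complex.ofReal_tsum, h5.tsum_eq]
    rfl
  rw [e1] at key
  have e2 : (fun m : ℕ => ∫ z in Iic (t - 2 * Real.log ((m : ℝ) + 1)), g z) = fun m => ∫ v, F m v := by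
    funext m
    exact (moeb hg _).symm
  rw [e2]
  exact key

/-- sums over the squares -/
theorem sqrt_sum (N : ℕ) : ∑ m ∈ Finset.range N, 1 / Real.sqrt ((m : ℝ) + 1) ≤ 2 * Real.sqrt N := by
  induction N with
  | zero => simp
  | succ n ih =>
    rw [Finset.sum_range_succ]
    have h1 : 0 < Real.sqrt ((n : ℝ) + 1) := Real.sqrt_pos.2 (by positivity)
    have h2 : Real.sqrt n ≤ Real.sqrt ((n : ℝ) + 1) := Real.sqrt_le_sqrt (by linarith)
    have h3 : Real.sqrt ((n : ℝ) + 1) * Real.sqrt ((n : ℝ) + 1) = (n : ℝ) + 1 := Real.mul_self_sqrt (by positivity)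
    have h4 : Real.sqrt (n : ℝ) * Real.sqrt (n : ℝ) = n := Real.mul_self_sqrt (by positivity)
    have h5 : 1 / Real.sqrt ((n : ℝ) + 1) ≤ 2 * Real.sqrt ((n : ℝ) + 1) - 2 * Real.sqrt n := by
      rw [div_le_iff₀ h1]
      nlinarith [sq_nonneg (Real.sqrt ((n : ℝ) + 1) - Real.sqrt n)]
    push_cast
    linarith

theorem inv_sq_sum (N k : ℕ) (hN : 1 ≤ N) :
    ∑ j ∈ Finset.range k, 1 / ((N : ℝ) + j + 1) ^ 2 ≤ 1 / (N : ℝ) - 1 / ((N : ℝ) + k) := by
  have hN0 : (0:ℝ) < N := by exact_mod_cast hN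
  induction k with
  | zero => simp
  | succ k ih =>
    rw [Finset.sum_range_succ]
    have hk : (0:ℝ) ≤ k := Nat.cast_nonneg k
    have h1 : 1 / ((N : ℝ) + k + 1) ^ 2 ≤ 1 / ((N : ℝ) + k) - 1 / ((N : ℝ) + k + 1) := by
      rw [div_sub_div _ _ (by positivity) (by positivity), div_le_div_iff₀ (by positivity) (by positivity)]
      nlinarith
    push_cast
    rw [show (N : ℝ) + (k + 1) = N + k + 1 by ring]
    linarith

/-- contribution of a remainder -/
theorem rem_sum (R : ℝ → ℂ) (C : ℝ) (hC : 0 ≤ C) (h1 : ∀ w ≤ 0, ‖R w‖ ≤ C * Real.exp (2 * w))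
    (h2 : ∀ w, 0 ≤ w → ‖R w‖ ≤ C * Real.exp (w / 4)) (t : ℝ) (ht : 0 ≤ t) :
    Summable (fun m : ℕ => ‖R (t - 2 * Real.log ((m : ℝ) + 1))‖) ∧
      ∑' m : ℕ, ‖R (t - 2 * Real.log ((m : ℝ) + 1))‖ ≤ 4 * C * Real.exp (t / 2) := by
  set Y : ℝ := Real.exp (t / 2) with hY
  have hY1 : 1 ≤ Y := Real.one_le_exp (by linarith)
  have hY0 : 0 < Y := by linarith
  set N : ℕ := ⌊Y⌋₊ with hN
  have hN1 : 1 ≤ N := Nat.le_floor (by simpa using hY1)
  have hN0 : (0:ℝ) < N := by exact_mod_cast hN1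
  have hNY : (N : ℝ) ≤ Y := Nat.floor_le hY0.le
  have hYN : Y < N + 1 := Nat.lt_floor_add_one Y
  have hlogY : Real.log Y = t / 2 := Real.log_exp _
  have hpart : ∀ n : ℕ, ∑ m ∈ Finset.range n, ‖R (t - 2 * Real.log ((m : ℝ) + 1))‖ ≤ 4 * C * Y := by
    intro n
    have b0 : ∑ m ∈ Finset.range n, ‖R (t - 2 * Real.log ((m : ℝ) + 1))‖ ≤
        ∑ m ∈ Finset.range (N + n), ‖R (t - 2 * Real.log ((m : ℝ) + 1))‖ :=
      Finset.sum_le_sum_of_subset_of_nonneg (Finset.range_mono (by omega)) fun _ _ _ => norm_nonneg _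
    refine b0.trans ?_
    rw [Finset.sum_range_add]
    have b1 : ∑ m ∈ Finset.range N, ‖R (t - 2 * Real.log ((m : ℝ) + 1))‖ ≤ 2 * C * Y := by
      have c1 : ∀ m ∈ Finset.range N, ‖R (t - 2 * Real.log ((m : ℝ) + 1))‖ ≤
          C * Real.sqrt Y * (1 / Real.sqrt ((m : ℝ) + 1)) := by
        intro m hm
        rw [Finset.mem_range] at hm
        have hm1 : (m : ℝ) + 1 ≤ Y := by
          have : ((m + 1 : ℕ) : ℝ) ≤ N := by exact_mod_cast hm
          push_cast at this
          linarith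
        have hm0 : (0:ℝ) < (m : ℝ) + 1 := by positivity
        have d1 : 0 ≤ t - 2 * Real.log ((m : ℝ) + 1) := by
          have := Real.log_le_log hm0 hm1
          rw [hlogY] at this
          linarith
        refine (h2 _ d1).trans (le_of_eq ?_)
        have d2 : Real.exp ((t - 2 * Real.log ((m : ℝ) + 1)) / 4) = Real.sqrt Y * (1 / Real.sqrt ((m : ℝ) + 1)) := by
          rw [mul_one_div, ← Real.sqrt_div' _ hm0.le, Real.sqrt_eq_rpow, Real.rpow_def_of_pos (by positivity),
            Real.log_div hY0.ne' hm0.ne', hlogY]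
          congr 1
          ring
        rw [d2]
        ring
      refine (Finset.sum_le_sum c1).trans ?_
      rw [← Finset.mul_sum]
      have c2 := sqrt_sum N
      have c3 : Real.sqrt N ≤ Real.sqrt Y := Real.sqrt_le_sqrt hNY
      have c4 : Real.sqrt Y * Real.sqrt Y = Y := Real.mul_self_sqrt hY0.le
      have c5 : 0 ≤ Real.sqrt Y := Real.sqrt_nonneg _
      calc C * Real.sqrt Y * ∑ m ∈ Finset.range N, 1 / Real.sqrt ((m : ℝ) + 1) ≤
            C * Real.sqrt Y * (2 * Real.sqrt Y) := mul_le_mul_of_nonneg_left (by linarith) (by positivity)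
        _ = 2 * C * (Real.sqrt Y * Real.sqrt Y) := by ring
        _ = _ := by rw [c4]
    have b2 : ∑ j ∈ Finset.range n, ‖R (t - 2 * Real.log (((N + j : ℕ) : ℝ) + 1))‖ ≤ 2 * C * Y := by
      have c1 : ∀ j ∈ Finset.range n, ‖R (t - 2 * Real.log (((N + j : ℕ) : ℝ) + 1))‖ ≤
          C * Y ^ 2 * (1 / ((N : ℝ) + j + 1) ^ 2) := by
        intro j _
        have hj : (0:ℝ) ≤ j := Nat.cast_nonneg j
        push_cast
        set q : ℝ := (N : ℝ) + j + 1 with hq
        have hq0 : 0 < q := by positivity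
        have hqY : Y ≤ q := by rw [hq]; linarith
        have d1 : t - 2 * Real.log q ≤ 0 := by
          have := Real.log_le_log hY0 hqY
          rw [hlogY] at this
          linarith
        refine (h1 _ d1).trans ?_
        have d2 : Real.exp (2 * (t - 2 * Real.log q)) = (Y / q) ^ 4 := by
          rw [← Real.exp_log (div_pos hY0 hq0), ← Real.exp_nat_mul, Real.log_div hY0.ne' hq0.ne', hlogY]
          congr 1
          push_cast
          ring
        rw [d2]
        have d3 : Y / q ≤ 1 := (div_le_one hq0).2 hqY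
        have d4 : 0 ≤ Y / q := by positivity
        calc C * (Y / q) ^ 4 ≤ C * (Y / q) ^ 2 :=
              mul_le_mul_of_nonneg_left (pow_le_pow_of_le_one d4 d3 (by norm_num)) hC
          _ = _ := by rw [div_pow]; ring
      refine (Finset.sum_le_sum c1).trans ?_
      rw [← Finset.mul_sum]
      have c2 := inv_sq_sum N n hN1
      have c3 : 1 / (N : ℝ) - 1 / ((N : ℝ) + n) ≤ 2 / Y := by
        have c4 : 1 / (N : ℝ) ≤ 2 / Y := by
          rw [div_le_div_iff₀ hN0 hY0]
          have : (1:ℝ) ≤ N := by exact_mod_cast hN1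
          linarith
        have c5 : 0 ≤ 1 / ((N : ℝ) + n) := by positivity
        linarith
      calc C * Y ^ 2 * ∑ j ∈ Finset.range n, 1 / ((N : ℝ) + j + 1) ^ 2 ≤ C * Y ^ 2 * (2 / Y) :=
            mul_le_mul_of_nonneg_left (c2.trans c3) (by positivity)
        _ = _ := by field_simp
    linarith
  exact ⟨summable_of_sum_range_le (fun _ => norm_nonneg _) hpart,
    Real.tsum_le_of_sum_range_le (fun _ => norm_nonneg _) hpart⟩

end

end Pool.Agent.W5h38.ML
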