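import Pool.Agent.W5h38.ML.B
import Pool.Agent.H307R2.LU

/-!
# Partial sums of `ζ(2ρ)` and sums over squares
-/

set_option autoImplicit false
set_option maxHeartbeats 4000000

open Complex MeasureTheory Filter Topology Set
open H313.TK

namespace Pool.Agent.W5h38.ML

noncomputable section

/-- `ζ(1/2) ≠ 0` -/
lemma zeta_half_ne : riemannZeta (1 / 2 : ℂ) ≠ 0 := by
  have h0 : (0:ℝ) < 1 / 2 := by norm_num
  have hne : (((1 / 2 : ℝ)) : ℂ) ≠ 1 := by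
    intro h
    have : (1 / 2 : ℝ) = 1 := by exact_mod_cast h
    norm_num at this
  have e0 := Pool.Agent.H307R2.zeta_eq (N := 1) le_rfl (s := ((1 / 2 : ℝ) : ℂ)) (by simp) hne
  have e1 : Pool.Agent.H307R2.TM 1 Pool.Agent.H307R2.Ez ((1 / 2 : ℝ) : ℂ) =
      ((∫ t in Ioi ((1 : ℕ) : ℝ), (-(Int.fract t)) * t ^ (-((1 / 2 : ℝ) + 1)) : ℝ) : ℂ) := by
    unfold Pool.Agent.H307R2.TM
    rw [← integral_complex_ofReal]
    refine MeasureTheory.setIntegral_congr_fun measurableSet_Ioi fun t ht => ?_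
    have ht' : (1 : ℝ) < t := by simpa using ht
    have ht0 : 0 ≤ t := by linarith
    simp only [Pool.Agent.H307R2.Ez]
    rw [Complex.ofReal_mul, Complex.ofReal_cpow ht0]
    push_cast
    rfl
  have e2 : (∫ t in Ioi ((1 : ℕ) : ℝ), (-(Int.fract t)) * t ^ (-((1 / 2 : ℝ) + 1)) : ℝ) ≤ 0 := by
    apply MeasureTheory.setIntegral_nonpos measurableSet_Ioi
    intro t ht
    have ht' : (1 : ℝ) < t := by simpa using ht
    have : 0 ≤ Int.fract t * t ^ (-((1 / 2 : ℝ) + 1)) :=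
      mul_nonneg (Int.fract_nonneg t) (Real.rpow_nonneg (by linarith) _)
    linarith
  rw [e1] at e0
  set I := (∫ t in Ioi ((1 : ℕ) : ℝ), (-(Int.fract t)) * t ^ (-((1 / 2 : ℝ) + 1)) : ℝ) with hI
  have e3 : riemannZeta (1 / 2 : ℂ) = ((1 + 1 / ((1 / 2 : ℝ) - 1) + (1 / 2) * I : ℝ) : ℂ) := by
    have e4 : (((1 / 2 : ℝ)) : ℂ) = (1 / 2 : ℂ) := by push_cast; rfl
    rw [e4] at e0
    rw [e0]
    push_cast
    simp
  rw [e3]
  intro h
  have h2 : (1 + 1 / ((1 / 2 : ℝ) - 1) + (1 / 2) * I : ℝ) = 0 := by exact_mod_cast h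
  norm_num at h2
  linarith

/-- terms of the series of `ζ(s)` -/
def za (s : ℂ) (j : ℕ) : ℂ := ((j + 1 : ℕ) : ℂ) ^ (-s)

/-- partial sums -/
def Zr (s : ℂ) (N : ℕ) : ℂ := ∑ j ∈ Finset.range N, za s j

theorem Zr_eq (s : ℂ) (N : ℕ) : Zr s N = ∑ n ∈ Finset.Icc 1 N, (n : ℂ) ^ (-s) := by
  unfold Zr za
  rw [Finset.range_eq_Ico, Finset.sum_Ico_add' (fun n : ℕ => (n : ℂ) ^ (-s)) 0 N 1]
  have h7 : Finset.Ico (0 + 1) (N + 1) = Finset.Icc 1 N := by
    ext k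
    simp only [Finset.mem_Ico, Finset.mem_Icc]
    omega
  rw [h7]

theorem Z_dec (s : ℂ) (hs : 1 ≤ s.re) (hs1 : s ≠ 1) (N : ℕ) (hN : 1 ≤ N) :
    ‖Zr s N - riemannZeta s + (N : ℂ) ^ (1 - s) / (s - 1)‖ ≤ ‖s‖ / N := by
  have hN0 : (0:ℝ) < N := by exact_mod_cast hN
  have hs0 : 0 < s.re := by linarith
  have h := Pool.Agent.H307R2.zeta_eq hN hs0 hs1
  rw [← Zr_eq] at h
  have e : Zr s N - riemannZeta s + (N : ℂ) ^ (1 - s) / (s - 1) =
      -(s * Pool.Agent.H307R2.TM N Pool.Agent.H307R2.Ez s) := by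
    rw [h]; ring
  rw [e, norm_neg, norm_mul]
  have h2 := Pool.Agent.H307R2.TM_norm_le hN Pool.Agent.H307R2.Ez_norm_le hs0
  rw [one_mul] at h2
  have h3 : (N : ℝ) ^ (-s.re) / s.re ≤ 1 / N := by
    have h4 : (N : ℝ) ^ (-s.re) ≤ (N : ℝ) ^ (-1 : ℝ) :=
      Real.rpow_le_rpow_of_exponent_le (by exact_mod_cast hN) (by linarith)
    rw [Real.rpow_neg_one] at h4
    refine (div_le_self (Real.rpow_nonneg hN0.le _) hs).trans ?_
    rw [one_div]
    exact h4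
  calc ‖s‖ * ‖Pool.Agent.H307R2.TM N Pool.Agent.H307R2.Ez s‖ ≤ ‖s‖ * (1 / N) :=
        mul_le_mul_of_nonneg_left (h2.trans h3) (norm_nonneg _)
    _ = _ := by ring

theorem pow_norm (s : ℂ) (N : ℕ) (hN : 1 ≤ N) : ‖(N : ℂ) ^ (1 - s)‖ = (N : ℝ) ^ (1 - s.re) := by
  rw [Complex.norm_natCast_cpow_of_pos (by omega)]
  simp

theorem Z_close (s : ℂ) (hs : 1 ≤ s.re) (hs1 : s ≠ 1) (N : ℕ) (hN : 1 ≤ N) :
    ‖Zr s N - riemannZeta s‖ ≤ ‖s‖ / N + (N : ℝ) ^ (1 - s.re) / ‖s - 1‖ := by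
  have h := Z_dec s hs hs1 N hN
  have e : Zr s N - riemannZeta s = (Zr s N - riemannZeta s + (N : ℂ) ^ (1 - s) / (s - 1)) -
      (N : ℂ) ^ (1 - s) / (s - 1) := by ring
  rw [e]
  refine (norm_sub_le _ _).trans (add_le_add h ?_)
  rw [norm_div, pow_norm s N hN]

/-- a bound for the partial sums -/
def Cz (s : ℂ) : ℝ := ‖s‖ + 1 / ‖s - 1‖

theorem Cz_nonneg (s : ℂ) : 0 ≤ Cz s := by unfold Cz; positivity

theorem Z_close' (s : ℂ) (hs : 1 ≤ s.re) (hs1 : s ≠ 1) (N : ℕ) (hN : 1 ≤ N) :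
    ‖Zr s N - riemannZeta s‖ ≤ Cz s := by
  refine (Z_close s hs hs1 N hN).trans ?_
  have hN1 : (1:ℝ) ≤ N := by exact_mod_cast hN
  unfold Cz
  refine add_le_add (div_le_self (norm_nonneg _) hN1) ?_
  have h1 : (N : ℝ) ^ (1 - s.re) ≤ 1 := Real.rpow_le_one_of_one_le_of_nonpos hN1 (by linarith)
  exact div_le_div_of_nonneg_right h1 (norm_nonneg _)

theorem Z_bdd (s : ℂ) (hs : 1 ≤ s.re) (hs1 : s ≠ 1) (N : ℕ) : ‖Zr s N‖ ≤ Cz s + ‖riemannZeta s‖ := by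
  rcases Nat.eq_zero_or_pos N with h | h
  · rw [h]
    unfold Zr
    simp
    exact add_nonneg (Cz_nonneg s) (norm_nonneg _)
  · have h1 := Z_close' s hs hs1 N h
    have h2 := norm_add_le (Zr s N - riemannZeta s) (riemannZeta s)
    rw [sub_add_cancel] at h2
    linarith

theorem log_step (k : ℕ) (hk : 1 ≤ k) : 0 ≤ Real.log ((k : ℝ) + 1) - Real.log k ∧
    Real.log ((k : ℝ) + 1) - Real.log k ≤ 1 / k ∧
    |Real.log ((k : ℝ) + 1) - Real.log k - 1 / k| ≤ 1 / (k : ℝ) ^ 2 := by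
  have hk0 : (0:ℝ) < k := by exact_mod_cast hk
  have e : Real.log ((k : ℝ) + 1) - Real.log k = Real.log (1 + 1 / k) := by
    rw [← Real.log_div (by positivity) hk0.ne']
    congr 1
    field_simp
  have h1 : Real.log (1 + 1 / (k:ℝ)) ≤ 1 / k := by
    have := Real.log_le_sub_one_of_pos (show 0 < 1 + 1 / (k:ℝ) by positivity)
    linarith
  have h2 : 1 / ((k:ℝ) + 1) ≤ Real.log (1 + 1 / (k:ℝ)) := by
    have := Real.one_sub_inv_le_log_of_pos (show 0 < 1 + 1 / (k:ℝ) by positivity)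
    refine le_trans (le_of_eq ?_) this
    field_simp
    ring
  have h3 : 1 / (k:ℝ) - 1 / ((k:ℝ) + 1) ≤ 1 / (k:ℝ) ^ 2 := by
    rw [div_sub_div _ _ (by positivity) (by positivity), div_le_div_iff₀ (by positivity) (by positivity)]
    nlinarith
  have h4 : 0 < 1 / ((k:ℝ) + 1) := by positivity
  rw [e]
  refine ⟨by linarith, h1, ?_⟩
  rw [abs_le]
  constructor <;> linarith [show 0 < 1 / (k:ℝ) ^ 2 by positivity]

/-- `∑ n^(-s) log n` -/
def Dr (s : ℂ) (N : ℕ) : ℂ := ∑ j ∈ Finset.range N, za s j * (Real.log ((j : ℝ) + 1) : ℂ)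

theorem Dr_eq (s : ℂ) (N : ℕ) : Dr s (N + 1) - (Zr s (N + 1) - riemannZeta s) * (Real.log ((N : ℝ) + 1) : ℂ) =
    -∑ k ∈ Finset.range N, (Zr s (k + 1) - riemannZeta s) *
      ((Real.log ((k : ℝ) + 1 + 1) - Real.log ((k : ℝ) + 1) : ℝ) : ℂ) := by
  induction N with
  | zero =>
    simp [Dr]
  | succ n ih =>
    rw [Finset.sum_range_succ, neg_add, ← ih]
    have h1 : Dr s (n + 1 + 1) = Dr s (n + 1) + za s (n + 1) * (Real.log ((n : ℝ) + 1 + 1) : ℂ) := by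
      unfold Dr
      rw [Finset.sum_range_succ _ (n + 1)]
      push_cast
      rfl
    have h2 : Zr s (n + 1 + 1) = Zr s (n + 1) + za s (n + 1) := by
      unfold Zr
      rw [Finset.sum_range_succ _ (n + 1)]
    rw [h1, h2]
    push_cast
    ring

theorem Dr_bdd (s : ℂ) (hs : 1 ≤ s.re) (hs1 : s ≠ 1) : ∃ C : ℝ, 0 ≤ C ∧ ∀ N : ℕ,
    ‖Dr s (N + 1) - (Zr s (N + 1) - riemannZeta s) * (Real.log ((N : ℝ) + 1) : ℂ)‖ ≤ C := by
  set S2 : ℝ := ∑' n : ℕ, 1 / ((n : ℝ) + 1) ^ 2 with hS2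
  have hS20 : 0 ≤ S2 := tsum_nonneg fun n => by positivity
  have hs10 : 0 < ‖s - 1‖ := norm_pos_iff.2 (sub_ne_zero.2 hs1)
  refine ⟨‖s‖ * S2 + 1 / ‖s - 1‖ * S2 + 1 / ‖s - 1‖ * (Cz s + ‖riemannZeta s‖), by
    have := Cz_nonneg s
    positivity, fun N => ?_⟩
  rw [Dr_eq, norm_neg]
  set L : ℕ → ℝ := fun k => Real.log ((k : ℝ) + 1 + 1) - Real.log ((k : ℝ) + 1) with hL
  have hstep : ∀ k : ℕ, 0 ≤ L k ∧ L k ≤ 1 / ((k : ℝ) + 1) ∧ |L k - 1 / ((k : ℝ) + 1)| ≤ 1 / ((k : ℝ) + 1) ^ 2 := by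
    intro k
    have := log_step (k + 1) (by omega)
    push_cast at this
    exact this
  have hsplit : ∑ k ∈ Finset.range N, (Zr s (k + 1) - riemannZeta s) * ((L k : ℝ) : ℂ) =
      (∑ k ∈ Finset.range N, (Zr s (k + 1) - riemannZeta s + ((k + 1 : ℕ) : ℂ) ^ (1 - s) / (s - 1)) * ((L k : ℝ) : ℂ)) -
      (∑ k ∈ Finset.range N, ((k + 1 : ℕ) : ℂ) ^ (1 - s) / (s - 1) * ((L k - 1 / ((k : ℝ) + 1) : ℝ) : ℂ)) -
      (∑ k ∈ Finset.range N, za s k) / (s - 1) := by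
    rw [Finset.sum_div, ← Finset.sum_sub_distrib, ← Finset.sum_sub_distrib]
    refine Finset.sum_congr rfl fun k _ => ?_
    have hk : ((k + 1 : ℕ) : ℂ) ≠ 0 := by exact_mod_cast (by omega : k + 1 ≠ 0)
    have e1 : za s k = ((k + 1 : ℕ) : ℂ) ^ (1 - s) * (((1 / ((k : ℝ) + 1) : ℝ)) : ℂ) := by
      unfold za
      rw [show -s = (1 - s) + (-1) by ring, Complex.cpow_add _ _ hk, Complex.cpow_neg_one]
      push_cast
      rw [one_div]
    rw [e1]
    push_cast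
    ring
  have b1 : ‖∑ k ∈ Finset.range N, (Zr s (k + 1) - riemannZeta s + ((k + 1 : ℕ) : ℂ) ^ (1 - s) / (s - 1)) * ((L k : ℝ) : ℂ)‖ ≤
      ‖s‖ * S2 := by
    refine (norm_sum_le _ _).trans ?_
    have : ∀ k ∈ Finset.range N, ‖(Zr s (k + 1) - riemannZeta s + ((k + 1 : ℕ) : ℂ) ^ (1 - s) / (s - 1)) * ((L k : ℝ) : ℂ)‖ ≤
        ‖s‖ * (1 / ((k : ℝ) + 1) ^ 2) := by
      intro k _
      rw [norm_mul, Complex.norm_real, Real.norm_eq_abs, abs_of_nonneg (hstep k).1]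
      have h1 := Z_dec s hs hs1 (k + 1) (by omega)
      have h2 : ‖s‖ / ((k + 1 : ℕ) : ℝ) = ‖s‖ * (1 / ((k : ℝ) + 1)) := by push_cast; ring
      rw [h2] at h1
      calc _ ≤ (‖s‖ * (1 / ((k : ℝ) + 1))) * (1 / ((k : ℝ) + 1)) :=
            mul_le_mul h1 (hstep k).2.1 (hstep k).1 (by positivity)
        _ = _ := by rw [sq]; field_simp
    refine (Finset.sum_le_sum this).trans ?_
    rw [← Finset.mul_sum]
    exact mul_le_mul_of_nonneg_left (sum_sq.sum_le_tsum _ fun n _ => by positivity) (norm_nonneg _)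
  have b2 : ‖∑ k ∈ Finset.range N, ((k + 1 : ℕ) : ℂ) ^ (1 - s) / (s - 1) * ((L k - 1 / ((k : ℝ) + 1) : ℝ) : ℂ)‖ ≤
      1 / ‖s - 1‖ * S2 := by
    refine (norm_sum_le _ _).trans ?_
    have : ∀ k ∈ Finset.range N, ‖((k + 1 : ℕ) : ℂ) ^ (1 - s) / (s - 1) * ((L k - 1 / ((k : ℝ) + 1) : ℝ) : ℂ)‖ ≤
        1 / ‖s - 1‖ * (1 / ((k : ℝ) + 1) ^ 2) := by
      intro k _
      rw [norm_mul, Complex.norm_real, Real.norm_eq_abs, norm_div, pow_norm s (k + 1) (by omega)]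
      have h1 : ((k + 1 : ℕ) : ℝ) ^ (1 - s.re) ≤ 1 :=
        Real.rpow_le_one_of_one_le_of_nonpos (by push_cast; linarith [(Nat.cast_nonneg k : (0:ℝ) ≤ k)]) (by linarith)
      exact mul_le_mul (div_le_div_of_nonneg_right h1 hs10.le) (hstep k).2.2 (abs_nonneg _) (by positivity)
    refine (Finset.sum_le_sum this).trans ?_
    rw [← Finset.mul_sum]
    exact mul_le_mul_of_nonneg_left (sum_sq.sum_le_tsum _ fun n _ => by positivity) (by positivity)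
  have b3 : ‖(∑ k ∈ Finset.range N, za s k) / (s - 1)‖ ≤ 1 / ‖s - 1‖ * (Cz s + ‖riemannZeta s‖) := by
    have := Z_bdd s hs hs1 N
    unfold Zr at this
    rw [norm_div, div_eq_mul_one_div, mul_comm]
    exact mul_le_mul_of_nonneg_left this (by positivity)
  rw [hsplit]
  refine (norm_sub_le _ _).trans (add_le_add ((norm_sub_le _ _).trans (add_le_add b1 b2)) b3)

/-- sums over the squares of a function with a given asymptotic behaviour -/
theorem sq_asy (ρ : ℂ) (h0 : 1 / 2 ≤ ρ.re) (h1 : ρ ≠ 1 / 2) (G : ℝ → ℂ) (A B : ℂ) (C : ℝ) (hC : 0 ≤ C)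
    (hn : ∀ w ≤ 0, ‖G w‖ ≤ C * Real.exp (2 * w)) (hG0 : ‖A * 0 + B‖ ≤ C)
    (hp : ∀ w : ℝ, 0 ≤ w → ‖G w - (A * w + B) * cexp (ρ * w)‖ ≤ C * Real.exp (w / 4)) :
    ∃ C2 : ℝ, 0 ≤ C2 ∧ ∀ t : ℝ, 0 ≤ t →
      ‖(∑' m : ℕ, G (t - 2 * Real.log ((m : ℝ) + 1))) -
        cexp (ρ * t) * (A * (t * riemannZeta (2 * ρ)) + B * Zr (2 * ρ) ⌊Real.exp (t / 2)⌋₊)‖ ≤
        8 * C * Real.exp (t / 2) + ‖A‖ * C2 * Real.exp (ρ.re * t) := by
  have hs : 1 ≤ (2 * ρ).re := by simp; linarith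
  have hs1 : 2 * ρ ≠ 1 := by
    intro h
    apply h1
    rw [← h]; ring
  obtain ⟨CD, hCD, hD⟩ := Dr_bdd (2 * ρ) hs hs1
  have hCz := Cz_nonneg (2 * ρ)
  refine ⟨2 * Cz (2 * ρ) + 2 * CD, by positivity, fun t ht => ?_⟩
  set Y : ℝ := Real.exp (t / 2) with hY
  have hY1 : 1 ≤ Y := Real.one_le_exp (by linarith)
  have hY0 : 0 < Y := by linarith
  set N : ℕ := ⌊Y⌋₊ with hN
  have hN1 : 1 ≤ N := Nat.le_floor (by simpa using hY1)
  have hN0 : (0:ℝ) < N := by exact_mod_cast hN1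
  have hNY : (N : ℝ) ≤ Y := Nat.floor_le hY0.le
  have hYN : Y < N + 1 := Nat.lt_floor_add_one Y
  have hlogY : Real.log Y = t / 2 := Real.log_exp _
  set main : ℝ → ℂ := fun w => if 0 ≤ w then (A * w + B) * cexp (ρ * w) else 0 with hmain
  -- the remainder
  have r1 : ∀ w ≤ 0, ‖G w - main w‖ ≤ 2 * C * Real.exp (2 * w) := by
    intro w hw
    simp only [hmain]
    rcases eq_or_lt_of_le hw with h | h
    · rw [h]
      have := hn 0 le_rfl
      rw [if_pos le_rfl]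
      refine (norm_sub_le _ _).trans ?_
      simp only [mul_zero, Real.exp_zero, mul_one, ofReal_zero, Complex.exp_zero] at this hG0 ⊢
      linarith
    · rw [if_neg (not_le.2 h), sub_zero]
      have := hn w hw
      have h2 := mul_nonneg hC (Real.exp_pos (2 * w)).le
      linarith
  have r2 : ∀ w, 0 ≤ w → ‖G w - main w‖ ≤ 2 * C * Real.exp (w / 4) := by
    intro w hw
    simp only [hmain]
    rw [if_pos hw]
    have := hp w hw
    have h2 := mul_nonneg hC (Real.exp_pos (w / 4)).le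
    linarith
  obtain ⟨hRs, hRb⟩ := rem_sum (fun w => G w - main w) (2 * C) (by positivity) r1 r2 t ht
  -- the main term
  have hlogN : ∀ m : ℕ, N ≤ m → t - 2 * Real.log ((m : ℝ) + 1) < 0 := by
    intro m hm
    have h2 : (N : ℝ) ≤ m := by exact_mod_cast hm
    have h3 := Real.log_lt_log hY0 (show Y < (m : ℝ) + 1 by linarith)
    rw [hlogY] at h3
    linarith
  have hlogM : ∀ m : ℕ, m < N → 0 ≤ t - 2 * Real.log ((m : ℝ) + 1) := by
    intro m hm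
    have h2 : ((m + 1 : ℕ) : ℝ) ≤ N := by exact_mod_cast hm
    push_cast at h2
    have h3 := Real.log_le_log (by positivity) (show (m : ℝ) + 1 ≤ Y by linarith)
    rw [hlogY] at h3
    linarith
  have hmS : HasSum (fun m : ℕ => main (t - 2 * Real.log ((m : ℝ) + 1)))
      (∑ m ∈ Finset.range N, main (t - 2 * Real.log ((m : ℝ) + 1))) := by
    refine hasSum_sum_of_ne_finset_zero fun m hm => ?_
    rw [Finset.mem_range, not_lt] at hm
    simp only [hmain]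
    rw [if_neg (not_le.2 (hlogN m hm))]
  have hmv : ∑ m ∈ Finset.range N, main (t - 2 * Real.log ((m : ℝ) + 1)) =
      cexp (ρ * t) * (A * (t * Zr (2 * ρ) N - 2 * Dr (2 * ρ) N) + B * Zr (2 * ρ) N) := by
    unfold Zr Dr
    rw [Finset.mul_sum, Finset.mul_sum, Finset.mul_sum, ← Finset.sum_sub_distrib, Finset.mul_sum,
      ← Finset.sum_add_distrib, Finset.mul_sum]
    refine Finset.sum_congr rfl fun m hm => ?_
    rw [Finset.mem_range] at hm
    simp only [hmain]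
    rw [if_pos (hlogM m hm)]
    have hm0 : ((m + 1 : ℕ) : ℂ) ≠ 0 := by exact_mod_cast (by omega : m + 1 ≠ 0)
    have e1 : cexp (ρ * ((t - 2 * Real.log ((m : ℝ) + 1) : ℝ) : ℂ)) = cexp (ρ * t) * za (2 * ρ) m := by
      unfold za
      rw [Complex.cpow_def_of_ne_zero hm0, ← Complex.exp_add]
      congr 1
      have : Complex.log ((m + 1 : ℕ) : ℂ) = ((Real.log ((m : ℝ) + 1) : ℝ) : ℂ) := by
        rw [Complex.ofReal_log (by positivity)]
        push_cast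
        rfl
      rw [this]
      push_cast
      ring
    rw [e1]
    push_cast
    ring
  have hRS : Summable (fun m : ℕ => (fun w => G w - main w) (t - 2 * Real.log ((m : ℝ) + 1))) := hRs.of_norm
  have htot : ∑' m : ℕ, G (t - 2 * Real.log ((m : ℝ) + 1)) =
      (∑' m : ℕ, (fun w => G w - main w) (t - 2 * Real.log ((m : ℝ) + 1))) +
      cexp (ρ * t) * (A * (t * Zr (2 * ρ) N - 2 * Dr (2 * ρ) N) + B * Zr (2 * ρ) N) := by
    rw [← hmv, ← hmS.tsum_eq, ← hRS.tsum_add hmS.summable]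
    refine tsum_congr fun m => ?_
    simp only
    ring
  have hRn : ‖∑' m : ℕ, (fun w => G w - main w) (t - 2 * Real.log ((m : ℝ) + 1))‖ ≤ 8 * C * Y := by
    refine (norm_tsum_le_tsum_norm hRs).trans (hRb.trans (le_of_eq ?_))
    ring
  -- the sum with logarithms
  have hlog : ‖((t : ℂ) * Zr (2 * ρ) N - 2 * Dr (2 * ρ) N) - t * riemannZeta (2 * ρ)‖ ≤ 2 * Cz (2 * ρ) + 2 * CD := by
    have h2 := hD (N - 1)
    rw [Nat.sub_add_cancel hN1] at h2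
    have h3 : ((N - 1 : ℕ) : ℝ) + 1 = N := by
      rw [Nat.cast_sub hN1]; simp
    rw [h3] at h2
    have h4 := Z_close' (2 * ρ) hs hs1 N hN1
    have h5 : |t - 2 * Real.log N| ≤ 2 := by
      have h6 := Real.log_le_log hN0 hNY
      have h7 := (log_step N hN1).2.1
      have h8 := Real.log_le_log hY0 hYN.le
      have h9 : 1 / (N:ℝ) ≤ 1 := by
        rw [div_le_one hN0]
        exact_mod_cast hN1
      rw [hlogY] at h6 h8
      rw [abs_le]
      constructor <;> linarith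
    have e1 : ((t : ℂ) * Zr (2 * ρ) N - 2 * Dr (2 * ρ) N) - t * riemannZeta (2 * ρ) =
        (Zr (2 * ρ) N - riemannZeta (2 * ρ)) * ((t - 2 * Real.log N : ℝ) : ℂ) -
        2 * (Dr (2 * ρ) N - (Zr (2 * ρ) N - riemannZeta (2 * ρ)) * (Real.log N : ℂ)) := by
      push_cast
      ring
    rw [e1]
    refine (norm_sub_le _ _).trans ?_
    rw [norm_mul, norm_mul, Complex.norm_real, Real.norm_eq_abs, Complex.norm_ofNat]
    refine add_le_add ?_ (mul_le_mul_of_nonneg_left h2 (by norm_num))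
    calc ‖Zr (2 * ρ) N - riemannZeta (2 * ρ)‖ * |t - 2 * Real.log N| ≤ Cz (2 * ρ) * 2 :=
          mul_le_mul h4 h5 (abs_nonneg _) hCz
      _ = _ := by ring
  rw [htot]
  have e2 : (∑' m : ℕ, (fun w => G w - main w) (t - 2 * Real.log ((m : ℝ) + 1))) +
      cexp (ρ * t) * (A * (t * Zr (2 * ρ) N - 2 * Dr (2 * ρ) N) + B * Zr (2 * ρ) N) -
      cexp (ρ * t) * (A * (t * riemannZeta (2 * ρ)) + B * Zr (2 * ρ) N) =
      (∑' m : ℕ, (fun w => G w - main w) (t - 2 * Real.log ((m : ℝ) + 1))) +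
      cexp (ρ * t) * (A * (((t : ℂ) * Zr (2 * ρ) N - 2 * Dr (2 * ρ) N) - t * riemannZeta (2 * ρ))) := by
    ring
  rw [e2]
  refine (norm_add_le _ _).trans (add_le_add hRn ?_)
  rw [norm_mul, norm_mul, norm_tw']
  calc Real.exp (ρ.re * t) * (‖A‖ * ‖((t : ℂ) * Zr (2 * ρ) N - 2 * Dr (2 * ρ) N) - t * riemannZeta (2 * ρ)‖) ≤
        Real.exp (ρ.re * t) * (‖A‖ * (2 * Cz (2 * ρ) + 2 * CD)) :=
        mul_le_mul_of_nonneg_left (mul_le_mul_of_nonneg_left hlog (norm_nonneg _)) (Real.exp_pos _).le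
    _ = _ := by ring

end

end Pool.Agent.W5h38.ML
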