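import Pool.Agent.W5h38.ML.C

/-!
# Core inequalities for the Liouville function
-/

set_option autoImplicit false
set_option maxHeartbeats 4000000

open Complex MeasureTheory Filter Topology Set
open H313.TK

namespace Pool.Agent.W5h38.ML

noncomputable section

theorem int_neg {g : ℝ → ℂ} (hg : QQ g) : ∃ C : ℝ, 0 ≤ C ∧ ∀ w ≤ 0, ‖∫ z in Iic w, g z‖ ≤ C * Real.exp (2 * w) := by
  obtain ⟨C, hC, hb⟩ := hg.bd 0
  refine ⟨C / 2, by positivity, fun w hw => ?_⟩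
  have h1 : ‖∫ z in Iic w, g z‖ ≤ ∫ z in Iic w, C * Real.exp (2 * z) := by
    refine norm_integral_le_of_norm_le ((integrableOn_exp_mul_Iic two_pos w).const_mul C) ?_
    exact (ae_restrict_iff' measurableSet_Iic).2 (ae_of_all _ fun z hz => hb z (le_trans hz hw))
  rw [integral_const_mul, integral_exp_mul_Iic two_pos] at h1
  refine h1.trans (le_of_eq ?_)
  ring

theorem lin_exp (a b t : ℝ) (ha : 0 ≤ a) (hb : 0 ≤ b) (ht : 0 ≤ t) :
    a + b * t ≤ (a + 4 * b) * Real.exp (t / 4) := by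
  have h1 := Real.add_one_le_exp (t / 4)
  have h2 : 1 ≤ Real.exp (t / 4) := Real.one_le_exp (by positivity)
  nlinarith

theorem G1_dec (ρ : ℂ) (h0 : 0 < ρ.re) (h1 : ρ.re < 1) : ∃ C : ℝ, 0 ≤ C ∧
    (∀ w ≤ 0, ‖∫ z in Iic w, Ist ρ qc z‖ ≤ C * Real.exp (2 * w)) ∧ ‖(0:ℂ) * 0 + qh ρ / ρ‖ ≤ C ∧
    (∀ w : ℝ, 0 ≤ w → ‖(∫ z in Iic w, Ist ρ qc z) - ((0:ℂ) * w + qh ρ / ρ) * cexp (ρ * w)‖ ≤ C * Real.exp (w / 4)) := by
  have hQ := Ist_QQ qc_QQ ρ (by linarith)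
  obtain ⟨C1, hC1, hb1⟩ := int_neg hQ
  obtain ⟨C2, hC2, hb2⟩ := G1_asy ρ h0 h1
  have hn := norm_nonneg (qh ρ / ρ)
  refine ⟨C1 + (C2 + 4 * 24) + ‖qh ρ / ρ‖, by positivity, fun w hw => ?_, ?_, fun w hw => ?_⟩
  · refine (hb1 w hw).trans ?_
    exact mul_le_mul_of_nonneg_right (by linarith) (Real.exp_pos _).le
  · rw [zero_mul, zero_add]
    linarith
  · rw [zero_mul, zero_add]
    refine (hb2 w hw).trans ((lin_exp C2 24 w hC2 (by norm_num) hw).trans ?_)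
    exact mul_le_mul_of_nonneg_right (by linarith) (Real.exp_pos _).le

/-- refined second asymptotics -/
theorem q2_ref (ρ : ℂ) (h0 : 0 < ρ.re) (h1 : ρ.re < 1) : ∃ b : ℂ, ∀ z : ℝ, 0 ≤ z →
    ‖cexp (-ρ * z) * Ist ρ (Ist ρ qc) z - (qh ρ * z + b)‖ ≤ 24 * Real.exp (-z) := by
  have hQ := Ist_QQ qc_QQ ρ (by linarith)
  have hi : ∀ v : ℝ, IntegrableOn (fun z : ℝ => cexp (-ρ * z) * Ist ρ qc z) (Iic v) := hQ.int ρ (by linarith)
  have hcont := hQ.cont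
  have hc1 : Continuous fun y : ℝ => cexp (-ρ * y) * Ist ρ qc y - qh ρ := by fun_prop
  have hbd : ∀ y : ℝ, 0 ≤ y → ‖cexp (-ρ * y) * Ist ρ qc y - qh ρ‖ ≤ 24 * Real.exp (-1 * y) := by
    intro y hy
    refine (q1_asy ρ h0 h1 y hy).trans ?_
    refine mul_le_mul_of_nonneg_left (Real.exp_le_exp.2 ?_) (by norm_num)
    nlinarith
  have hI : ∀ z : ℝ, 0 ≤ z → IntegrableOn (fun y : ℝ => cexp (-ρ * y) * Ist ρ qc y - qh ρ) (Ioi z) := by
    intro z hz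
    refine Integrable.mono' ((integrableOn_exp_mul_Ioi (by norm_num : (-1:ℝ) < 0) z).const_mul 24)
      hc1.aestronglyMeasurable ?_
    exact (ae_restrict_iff' measurableSet_Ioi).2 (ae_of_all _ fun y hy => hbd y (hz.trans (le_of_lt hy)))
  refine ⟨(∫ y in Iic (0:ℝ), cexp (-ρ * y) * Ist ρ qc y) + ∫ y in Ioi (0:ℝ), (cexp (-ρ * y) * Ist ρ qc y - qh ρ),
    fun z hz => ?_⟩
  have e1 : cexp (-ρ * z) * Ist ρ (Ist ρ qc) z = ∫ y in Iic z, cexp (-ρ * y) * Ist ρ qc y := by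
    rw [Ist, ← mul_assoc, ← Complex.exp_add, show -ρ * (z : ℂ) + ρ * z = 0 by ring, Complex.exp_zero, one_mul]
  have e2 := intervalIntegral.integral_Iic_sub_Iic (hi 0) (hi z)
  have hi1 : IntervalIntegrable (fun y : ℝ => cexp (-ρ * y) * Ist ρ qc y) volume 0 z :=
    (by fun_prop : Continuous fun y : ℝ => cexp (-ρ * y) * Ist ρ qc y).intervalIntegrable _ _
  have e3 : ∫ y in (0:ℝ)..z, (cexp (-ρ * y) * Ist ρ qc y - qh ρ) =
      (∫ y in (0:ℝ)..z, cexp (-ρ * y) * Ist ρ qc y) - z * qh ρ := by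
    rw [intervalIntegral.integral_sub hi1 intervalIntegrable_const, intervalIntegral.integral_const, sub_zero,
      Complex.real_smul]
  have e4 : (∫ y in (0:ℝ)..z, (cexp (-ρ * y) * Ist ρ qc y - qh ρ)) +
      ∫ y in Ioi z, (cexp (-ρ * y) * Ist ρ qc y - qh ρ) =
      ∫ y in Ioi (0:ℝ), (cexp (-ρ * y) * Ist ρ qc y - qh ρ) := by
    exact intervalIntegral.integral_interval_add_Ioi (hI 0 le_rfl) (hI z hz)
  have e5 : cexp (-ρ * z) * Ist ρ (Ist ρ qc) z - (qh ρ * z + ((∫ y in Iic (0:ℝ), cexp (-ρ * y) * Ist ρ qc y) +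
      ∫ y in Ioi (0:ℝ), (cexp (-ρ * y) * Ist ρ qc y - qh ρ))) =
      -∫ y in Ioi z, (cexp (-ρ * y) * Ist ρ qc y - qh ρ) := by
    rw [e1, ← e4, e3, ← e2]
    ring
  rw [e5, norm_neg]
  have e6 : ‖∫ y in Ioi z, (cexp (-ρ * y) * Ist ρ qc y - qh ρ)‖ ≤ ∫ y in Ioi z, 24 * Real.exp (-1 * y) := by
    refine norm_integral_le_of_norm_le ((integrableOn_exp_mul_Ioi (by norm_num : (-1:ℝ) < 0) z).const_mul 24) ?_
    exact (ae_restrict_iff' measurableSet_Ioi).2 (ae_of_all _ fun y hy => hbd y (hz.trans (le_of_lt hy)))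
  rw [integral_const_mul, integral_exp_mul_Ioi (by norm_num : (-1:ℝ) < 0)] at e6
  refine e6.trans (le_of_eq ?_)
  ring_nf

theorem G2_dec (ρ : ℂ) (h0 : 0 < ρ.re) (h1 : ρ.re < 1) : ∃ B : ℂ, ∃ C : ℝ, 0 ≤ C ∧
    (∀ w ≤ 0, ‖∫ z in Iic w, Ist ρ (Ist ρ qc) z‖ ≤ C * Real.exp (2 * w)) ∧ ‖(qh ρ / ρ) * 0 + B‖ ≤ C ∧
    (∀ w : ℝ, 0 ≤ w → ‖(∫ z in Iic w, Ist ρ (Ist ρ qc) z) - ((qh ρ / ρ) * w + B) * cexp (ρ * w)‖ ≤
      C * Real.exp (w / 4)) := by
  have hρ : ρ ≠ 0 := by rintro rfl; simp at h0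
  have hQ := Ist_QQ (Ist_QQ qc_QQ ρ (by linarith)) ρ (by linarith)
  obtain ⟨C1, hC1, hb1⟩ := int_neg hQ
  obtain ⟨b, hb⟩ := q2_ref ρ h0 h1
  set B : ℂ := b / ρ - qh ρ / ρ ^ 2 with hB
  set a : ℂ := (∫ z in Iic (0:ℝ), Ist ρ (Ist ρ qc) z) - B with ha
  refine ⟨B, C1 + (‖a‖ + 4 * 24) + ‖B‖, by positivity, fun w hw => ?_, ?_, fun w hw => ?_⟩
  · refine (hb1 w hw).trans ?_
    refine mul_le_mul_of_nonneg_right ?_ (Real.exp_pos _).le
    linarith [norm_nonneg a, norm_nonneg B]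
  · rw [mul_zero, zero_add]
    linarith [norm_nonneg a]
  · have e1 := intervalIntegral.integral_Iic_sub_Iic (hQ.int0 0) (hQ.int0 w)
    have hi1 : IntervalIntegrable (Ist ρ (Ist ρ qc)) volume 0 w := hQ.cont.intervalIntegrable _ _
    have hi2 : IntervalIntegrable (fun z : ℝ => qh ρ * ((z : ℂ) * cexp (ρ * z)) + b * cexp (ρ * z)) volume 0 w :=
      (by fun_prop : Continuous fun z : ℝ => qh ρ * ((z : ℂ) * cexp (ρ * z)) + b * cexp (ρ * z)).intervalIntegrable _ _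
    have e2 : ‖∫ z in (0:ℝ)..w, (Ist ρ (Ist ρ qc) z - (qh ρ * ((z : ℂ) * cexp (ρ * z)) + b * cexp (ρ * z)))‖ ≤
        24 * |w - 0| := by
      refine intervalIntegral.norm_integral_le_of_norm_le_const fun z hz => ?_
      rw [uIoc_of_le hw] at hz
      have h5 := hb z hz.1.le
      have h6 : Ist ρ (Ist ρ qc) z - (qh ρ * ((z : ℂ) * cexp (ρ * z)) + b * cexp (ρ * z)) =
          cexp (ρ * z) * (cexp (-ρ * z) * Ist ρ (Ist ρ qc) z - (qh ρ * z + b)) := by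
        rw [mul_sub, tw_cancel]
        ring
      rw [h6, norm_mul, norm_tw']
      calc Real.exp (ρ.re * z) * ‖cexp (-ρ * z) * Ist ρ (Ist ρ qc) z - (qh ρ * z + b)‖ ≤
            Real.exp (ρ.re * z) * (24 * Real.exp (-z)) := mul_le_mul_of_nonneg_left h5 (Real.exp_pos _).le
        _ = 24 * (Real.exp (ρ.re * z) * Real.exp (-z)) := by ring
        _ = 24 * Real.exp (ρ.re * z + -z) := by rw [← Real.exp_add]
        _ ≤ 24 * 1 := by
            refine mul_le_mul_of_nonneg_left (Real.exp_le_one_iff.2 ?_) (by norm_num)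
            nlinarith [hz.1]
        _ = 24 := by norm_num
    have hj1 : IntervalIntegrable (fun z : ℝ => qh ρ * ((z : ℂ) * cexp (ρ * z))) volume 0 w :=
      (by fun_prop : Continuous fun z : ℝ => qh ρ * ((z : ℂ) * cexp (ρ * z))).intervalIntegrable _ _
    have hj2 : IntervalIntegrable (fun z : ℝ => b * cexp (ρ * z)) volume 0 w :=
      (by fun_prop : Continuous fun z : ℝ => b * cexp (ρ * z)).intervalIntegrable _ _
    rw [sub_zero, abs_of_nonneg hw, intervalIntegral.integral_sub hi1 hi2, intervalIntegral.integral_add hj1 hj2,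
      intervalIntegral.integral_const_mul, intervalIntegral.integral_const_mul, int_z_exp_C ρ hρ, int_exp_C ρ hρ] at e2
    have e3 : (∫ z in Iic w, Ist ρ (Ist ρ qc) z) - (qh ρ / ρ * w + B) * cexp (ρ * w) =
        a + ((∫ z in (0:ℝ)..w, Ist ρ (Ist ρ qc) z) - (qh ρ * (w * cexp (ρ * w) / ρ - (cexp (ρ * w) - 1) / ρ ^ 2) +
          b * ((cexp (ρ * w) - 1) / ρ))) := by
      rw [ha, hB, ← e1]
      field_simp
      ring
    rw [e3]
    refine (norm_add_le _ _).trans ?_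
    refine (add_le_add le_rfl e2).trans ((lin_exp ‖a‖ 24 w (norm_nonneg a) (by norm_num) hw).trans ?_)
    refine mul_le_mul_of_nonneg_right ?_ (Real.exp_pos _).le
    linarith [norm_nonneg B]

/-- the average of the Liouville sums is `O(e^(t/2))` -/
theorem avg_ll : ∃ E : ℝ, 0 ≤ E ∧ ∀ t : ℝ, 0 ≤ t → |∫ v : ℝ, ll (t - v) * kp v| ≤ E * Real.exp (t / 2) := by
  obtain ⟨C1, hC1, hb1⟩ := int_neg qc_QQ
  set D : ℝ := 48 * ∫ x : ℝ, Real.exp (-(2 * |x|)) with hD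
  have hD0 : 0 ≤ D := by
    have : 0 ≤ ∫ x : ℝ, Real.exp (-(2 * |x|)) := integral_nonneg fun x => (Real.exp_pos _).le
    positivity
  refine ⟨4 * (C1 + D), by positivity, fun t ht => ?_⟩
  have h1 := liou qc_QQ (by rw [← kc_eq]; exact kc_DK) t
  rw [← kc_eq] at h1
  have h2 : ∫ v : ℝ, (ll (t - v) : ℂ) * kc v = ((∫ v : ℝ, ll (t - v) * kp v : ℝ) : ℂ) := by
    rw [← integral_complex_ofReal]
    refine integral_congr_ae (ae_of_all _ fun v => ?_)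
    simp [kc]
  rw [h2] at h1
  obtain ⟨r1, r2⟩ := rem_sum (fun w => ∫ z in Iic w, qc z) (C1 + D) (by positivity) (fun w hw => by
      refine (hb1 w hw).trans ?_
      exact mul_le_mul_of_nonneg_right (by linarith) (Real.exp_pos _).le) (fun w hw => by
      have hi : Integrable (fun x : ℝ => 48 * Real.exp (-(2 * |x|))) := (int_exp_abs 2 (by norm_num)).const_mul 48
      have g1 : ‖∫ z in Iic w, qc z‖ ≤ D := by
        rw [hD, ← integral_const_mul]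
        refine (norm_integral_le_of_norm_le (g := fun x : ℝ => 48 * Real.exp (-(2 * |x|))) hi.integrableOn
          (ae_of_all _ fun z => qq_bd z)).trans ?_
        exact setIntegral_le_integral hi (ae_of_all _ fun x => by positivity)
      have g2 : 1 ≤ Real.exp (w / 4) := Real.one_le_exp (by positivity)
      nlinarith) t ht
  have h3 : |∫ v : ℝ, ll (t - v) * kp v| = ‖∑' m : ℕ, ∫ z in Iic (t - 2 * Real.log ((m : ℝ) + 1)), qc z‖ := by
    rw [h1.tsum_eq, Complex.norm_real, Real.norm_eq_abs]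
  rw [h3]
  exact (norm_tsum_le_tsum_norm r1).trans r2

/-- from a twisted average to both parts -/
theorem parts_L (g : ℝ → ℂ) (hg : QQ g) (hD : DK (Sg g)) : ∃ c : ℝ, 0 < c ∧ ∃ C : ℝ, 0 ≤ C ∧
    ∀ t : ℝ, 0 ≤ t → ∀ s : ℝ, s = 1 ∨ s = -1 →
    c * ‖∑' m : ℕ, ∫ z in Iic (t - 2 * Real.log ((m : ℝ) + 1)), g z‖ - C * Real.exp (t / 2) ≤
      ∫ v : ℝ, max (s * ll (t - v)) 0 * kp v := by
  obtain ⟨B, hB, hb⟩ := hD.bd
  obtain ⟨E, hE, havg⟩ := avg_ll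
  refine ⟨1 / (4 * (B + 1)), by positivity, E / 2, by positivity, fun t ht s hs => ?_⟩
  have hm := ll_meas
  have i1 := avg_int ll ll_meas abs_ll_le t
  have i2 : Integrable (fun v => |ll (t - v)| * kp v) :=
    avg_int (fun u => |ll u|) (by fun_prop) (fun u => by rw [abs_abs]; exact abs_ll_le u) t
  have i3 : Integrable (fun v => max (s * ll (t - v)) 0 * kp v) :=
    avg_int (fun u => max (s * ll u) 0) (by fun_prop) (fun u => (part_le s hs _).trans (abs_ll_le u)) t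
  have e1 : ∫ v, |ll (t - v)| * kp v = 2 * (∫ v, max (s * ll (t - v)) 0 * kp v) - s * ∫ v, ll (t - v) * kp v := by
    rw [← integral_const_mul, ← integral_const_mul, ← integral_sub (i3.const_mul 2) (i1.const_mul s)]
    refine integral_congr_ae (ae_of_all _ fun v => ?_)
    simp only
    rw [part_id s hs (ll (t - v))]
    ring
  have e3 : |s * ∫ v, ll (t - v) * kp v| ≤ E * Real.exp (t / 2) := by
    rw [abs_mul]
    have : |s| = 1 := by rcases hs with h | h <;> rw [h] <;> simp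
    rw [this, one_mul]
    exact havg t ht
  have e4 : ‖∑' m : ℕ, ∫ z in Iic (t - 2 * Real.log ((m : ℝ) + 1)), g z‖ ≤
      (2 * (B + 1)) * ∫ v, |ll (t - v)| * kp v := by
    rw [(liou hg hD t).tsum_eq, ← integral_const_mul]
    refine norm_integral_le_of_norm_le (i2.const_mul _) (ae_of_all _ fun v => ?_)
    rw [norm_mul, Complex.norm_real, Real.norm_eq_abs]
    have h5 : ‖Sg g v‖ ≤ 2 * (B + 1) * kp v := by
      refine (hb v).trans ?_
      have h6 := (kp_bounds v).1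
      have h7 := W_pos v
      nlinarith
    calc |ll (t - v)| * ‖Sg g v‖ ≤ |ll (t - v)| * (2 * (B + 1) * kp v) :=
          mul_le_mul_of_nonneg_left h5 (abs_nonneg _)
      _ = _ := by ring
  have e5 := (abs_le.1 e3).1
  have hB1 : 0 < B + 1 := by linarith
  rw [e1] at e4
  have e6 : 1 / (4 * (B + 1)) * ‖∑' m : ℕ, ∫ z in Iic (t - 2 * Real.log ((m : ℝ) + 1)), g z‖ ≤
      1 / (4 * (B + 1)) * (2 * (B + 1) * (2 * (∫ v, max (s * ll (t - v)) 0 * kp v) - s * ∫ v, ll (t - v) * kp v)) :=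
    mul_le_mul_of_nonneg_left e4 (by positivity)
  have e7 : 1 / (4 * (B + 1)) * (2 * (B + 1) * (2 * (∫ v, max (s * ll (t - v)) 0 * kp v) - s * ∫ v, ll (t - v) * kp v))
      = (∫ v, max (s * ll (t - v)) 0 * kp v) - (s * ∫ v, ll (t - v) * kp v) / 2 := by
    field_simp
    ring
  rw [e7] at e6
  linarith

/-- **Core inequality for the Liouville function, zeros off the critical line.** -/
theorem core1L (ρ : ℂ) (hz : riemannZeta ρ = 0) (h0 : 1 / 2 < ρ.re) (h1 : ρ.re < 1) :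
    ∃ c : ℝ, 0 < c ∧ ∀ᶠ t : ℝ in atTop, ∀ s : ℝ, s = 1 ∨ s = -1 →
      c * ((fun _ : ℝ => (1:ℝ)) t * Real.exp (ρ.re * t)) ≤ ∫ v : ℝ, max (s * ll (t - v)) 0 * kp v := by
  have hp : 0 < ρ.re := by linarith
  have hρ : ρ ≠ 0 := by rintro rfl; simp at hp
  have hρ2 : ρ ≠ 1 / 2 := by rintro rfl; norm_num at h0
  have hQ := Ist_QQ qc_QQ ρ (by linarith)
  have hS : Sg (Ist ρ qc) = Ist ρ kc := by
    funext v
    rw [kc_eq]
    exact (Sg_Ist qc_QQ ρ (by linarith) v).symm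
  have hre : |ρ.re| ≤ 2 := by rw [abs_of_pos hp]; linarith
  have hD : DK (Sg (Ist ρ qc)) := by
    rw [hS]
    exact Ist_DK kc_DK ρ hre (Kh_zero ρ hz hp h1)
  obtain ⟨c, hc, C, hC, hcore⟩ := parts_L _ hQ hD
  obtain ⟨C1, hC1, a1, a2, a3⟩ := G1_dec ρ hp h1
  obtain ⟨C2, hC2, hasy⟩ := sq_asy ρ h0.le hρ2 _ 0 (qh ρ / ρ) C1 hC1 a1 a2 a3
  set A : ℝ := ‖qh ρ / ρ‖ with hA
  have hA0 : 0 < A := norm_pos_iff.2 (div_ne_zero (qh_ne ρ hp h1) hρ)
  have hs : 1 ≤ (2 * ρ).re := by simp; linarith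
  have hs1 : 2 * ρ ≠ 1 := by
    intro h
    apply hρ2
    rw [← h]; ring
  set Z : ℝ := ‖riemannZeta (2 * ρ)‖ with hZ
  have hZ0 : 0 < Z := norm_pos_iff.2 (riemannZeta_ne_zero_of_one_le_re hs)
  refine ⟨c * A * Z / 4, by positivity, ?_⟩
  -- the partial sums approach their limit
  have hlim1 : Tendsto (fun t : ℝ => ((⌊Real.exp (t / 2)⌋₊ : ℕ) : ℝ)) atTop atTop := by
    have h2 : Tendsto (fun t : ℝ => Real.exp (t / 2)) atTop atTop :=
      Real.tendsto_exp_atTop.comp (tendsto_id.atTop_div_const (by norm_num))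
    exact tendsto_natCast_atTop_atTop.comp (tendsto_nat_floor_atTop.comp h2)
  have hclose : ∀ᶠ t : ℝ in atTop, ‖2 * ρ‖ / ((⌊Real.exp (t / 2)⌋₊ : ℕ) : ℝ) +
      ((⌊Real.exp (t / 2)⌋₊ : ℕ) : ℝ) ^ (1 - (2 * ρ).re) / ‖2 * ρ - 1‖ ≤ Z / 2 := by
    have h2 : Tendsto (fun x : ℝ => ‖2 * ρ‖ / x + x ^ (1 - (2 * ρ).re) / ‖2 * ρ - 1‖) atTop (𝓝 (0 + 0 / ‖2 * ρ - 1‖)) := by
      refine Tendsto.add (tendsto_const_nhds.div_atTop tendsto_id) (Tendsto.div_const ?_ _)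
      have h3 : (2 * ρ).re = 2 * ρ.re := by simp
      have h4 : 1 - (2 * ρ).re = -(2 * ρ.re - 1) := by rw [h3]; ring
      rw [h4]
      exact tendsto_rpow_neg_atTop (by linarith)
    rw [zero_div, add_zero] at h2
    exact (h2.comp hlim1).eventually (ge_mem_nhds (by positivity))
  have hlim2 : ∀ᶠ t : ℝ in atTop, (c * (8 * C1) + C) / (c * A * Z / 4) ≤ Real.exp ((ρ.re - 1 / 2) * t) := by
    have h2 : Tendsto (fun t : ℝ => Real.exp ((ρ.re - 1 / 2) * t)) atTop atTop :=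
      Real.tendsto_exp_atTop.comp (Tendsto.const_mul_atTop (by linarith) tendsto_id)
    exact h2.eventually_ge_atTop _
  filter_upwards [hclose, hlim2, eventually_ge_atTop (0:ℝ)] with t g1 g2 g3 s hs'
  have hY1 : 1 ≤ Real.exp (t / 2) := Real.one_le_exp (by linarith)
  have hN1 : 1 ≤ ⌊Real.exp (t / 2)⌋₊ := Nat.le_floor (by simpa using hY1)
  have k1 := hcore t g3 s hs'
  have k2 := hasy t g3
  have e0 : 8 * C1 * Real.exp (t / 2) + ‖(0:ℂ)‖ * C2 * Real.exp (ρ.re * t) = 8 * C1 * Real.exp (t / 2) := by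
    simp
  rw [e0] at k2
  have k3 := (Z_close (2 * ρ) hs hs1 _ hN1).trans g1
  set S := ∑' m : ℕ, ∫ z in Iic (t - 2 * Real.log ((m : ℝ) + 1)), Ist ρ qc z with hSdef
  set ZN := Zr (2 * ρ) ⌊Real.exp (t / 2)⌋₊ with hZN
  have k4 : Z / 2 ≤ ‖ZN‖ := by
    have h5 := norm_sub_norm_le (riemannZeta (2 * ρ)) ZN
    rw [norm_sub_rev] at h5
    linarith
  have k5 : A * (Z / 2) * Real.exp (ρ.re * t) ≤ ‖S‖ + 8 * C1 * Real.exp (t / 2) := by
    have h6 : ‖cexp (ρ * t) * (0 * (t * riemannZeta (2 * ρ)) + qh ρ / ρ * ZN)‖ = A * ‖ZN‖ * Real.exp (ρ.re * t) := by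
      rw [zero_mul, zero_add, norm_mul, norm_mul, norm_tw']
      ring
    have h7 : ‖cexp (ρ * t) * (0 * (t * riemannZeta (2 * ρ)) + qh ρ / ρ * ZN)‖ ≤ ‖S‖ +
        ‖S - cexp (ρ * t) * (0 * (t * riemannZeta (2 * ρ)) + qh ρ / ρ * ZN)‖ := by
      have := norm_sub_norm_le (cexp (ρ * t) * (0 * (t * riemannZeta (2 * ρ)) + qh ρ / ρ * ZN)) S
      rw [norm_sub_rev] at this
      linarith
    rw [h6] at h7
    have h8 : A * (Z / 2) * Real.exp (ρ.re * t) ≤ A * ‖ZN‖ * Real.exp (ρ.re * t) :=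
      mul_le_mul_of_nonneg_right (mul_le_mul_of_nonneg_left k4 hA0.le) (Real.exp_pos _).le
    linarith
  rw [div_le_iff₀ (by positivity)] at g2
  have k6 : Real.exp ((ρ.re - 1 / 2) * t) * Real.exp (t / 2) = Real.exp (ρ.re * t) := by
    rw [← Real.exp_add]
    congr 1
    ring
  have k7 := mul_le_mul_of_nonneg_right g2 (Real.exp_pos (t / 2)).le
  have k8 : Real.exp ((ρ.re - 1 / 2) * t) * (c * A * Z / 4) * Real.exp (t / 2) = c * A * Z / 4 * Real.exp (ρ.re * t) := by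
    rw [← k6]; ring
  rw [k8] at k7
  have k9 := mul_le_mul_of_nonneg_left k5 hc.le
  simp only [one_mul]
  nlinarith

/-- **Core inequality for the Liouville function, multiple zeros.** -/
theorem core2L (ρ : ℂ) (hz : riemannZeta ρ = 0) (hz' : deriv riemannZeta ρ = 0) (h0 : 1 / 2 ≤ ρ.re) (h1 : ρ.re < 1) :
    ∃ c : ℝ, 0 < c ∧ ∀ᶠ t : ℝ in atTop, ∀ s : ℝ, s = 1 ∨ s = -1 →
      c * (t * Real.exp (ρ.re * t)) ≤ ∫ v : ℝ, max (s * ll (t - v)) 0 * kp v := by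
  have hp : 0 < ρ.re := by linarith
  have hρ : ρ ≠ 0 := by rintro rfl; simp at hp
  have hρ2 : ρ ≠ 1 / 2 := by rintro rfl; exact zeta_half_ne hz
  have hQ := Ist_QQ qc_QQ ρ (by linarith)
  have hQ2 := Ist_QQ hQ ρ (by linarith)
  have hre : |ρ.re| ≤ 2 := by rw [abs_of_pos hp]; linarith
  have hre1 : |ρ.re| ≤ 1 := by rw [abs_of_pos hp]; linarith
  have hS : Sg (Ist ρ qc) = Ist ρ kc := by
    funext v
    rw [kc_eq]
    exact (Sg_Ist qc_QQ ρ (by linarith) v).symm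
  have hS2 : Sg (Ist ρ (Ist ρ qc)) = Ist ρ (Ist ρ kc) := by
    funext v
    rw [← hS]
    exact (Sg_Ist hQ ρ (by linarith) v).symm
  have hK0 := Kh_zero ρ hz hp h1
  have hD1 : DK (Ist ρ kc) := Ist_DK kc_DK ρ hre hK0
  have hm := Ist_moment kc_DK ρ hre1 hK0 (Kh_double ρ hz hz' hp h1)
  have hD : DK (Sg (Ist ρ (Ist ρ qc))) := by
    rw [hS2]
    exact Ist_DK hD1 ρ hre hm
  obtain ⟨c, hc, C, hC, hcore⟩ := parts_L _ hQ2 hD
  obtain ⟨B, C1, hC1, a1, a2, a3⟩ := G2_dec ρ hp h1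
  obtain ⟨C2, hC2, hasy⟩ := sq_asy ρ h0 hρ2 _ (qh ρ / ρ) B C1 hC1 a1 a2 a3
  set A : ℝ := ‖qh ρ / ρ‖ with hA
  have hA0 : 0 < A := norm_pos_iff.2 (div_ne_zero (qh_ne ρ hp h1) hρ)
  have hs : 1 ≤ (2 * ρ).re := by simp; linarith
  have hs1 : 2 * ρ ≠ 1 := by
    intro h
    apply hρ2
    rw [← h]; ring
  set Z : ℝ := ‖riemannZeta (2 * ρ)‖ with hZ
  have hZ0 : 0 < Z := norm_pos_iff.2 (riemannZeta_ne_zero_of_one_le_re hs)
  have hCz := Cz_nonneg (2 * ρ)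
  set K : ℝ := c * (8 * C1 + A * C2 + ‖B‖ * (Cz (2 * ρ) + Z)) + C with hK
  have hK0' : 0 ≤ K := by positivity
  refine ⟨c * A * Z / 2, by positivity, ?_⟩
  filter_upwards [eventually_ge_atTop (K / (c * A * Z / 2)), eventually_ge_atTop (0:ℝ)] with t g1 g3 s hs'
  rw [div_le_iff₀ (by positivity)] at g1
  have k1 := hcore t g3 s hs'
  have k2 := hasy t g3
  set S := ∑' m : ℕ, ∫ z in Iic (t - 2 * Real.log ((m : ℝ) + 1)), Ist ρ (Ist ρ qc) z with hSdef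
  set ZN := Zr (2 * ρ) ⌊Real.exp (t / 2)⌋₊ with hZN
  have k3 : ‖ZN‖ ≤ Cz (2 * ρ) + Z := Z_bdd (2 * ρ) hs hs1 _
  have k5 : A * (t * Z) * Real.exp (ρ.re * t) ≤ ‖S‖ + (8 * C1 * Real.exp (t / 2) + A * C2 * Real.exp (ρ.re * t)) +
      ‖B‖ * (Cz (2 * ρ) + Z) * Real.exp (ρ.re * t) := by
    have h6 : ‖cexp (ρ * t) * (qh ρ / ρ * (t * riemannZeta (2 * ρ)))‖ = A * (t * Z) * Real.exp (ρ.re * t) := by
      rw [norm_mul, norm_mul, norm_mul, norm_tw', Complex.norm_real, Real.norm_eq_abs, abs_of_nonneg g3]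
      ring
    have h7 : cexp (ρ * t) * (qh ρ / ρ * (t * riemannZeta (2 * ρ))) =
        S - (S - cexp (ρ * t) * (qh ρ / ρ * (t * riemannZeta (2 * ρ)) + B * ZN)) - cexp (ρ * t) * (B * ZN) := by
      ring
    rw [← h6, h7]
    refine (norm_sub_le _ _).trans (add_le_add ((norm_sub_le _ _).trans (add_le_add le_rfl k2)) ?_)
    rw [norm_mul, norm_mul, norm_tw']
    calc Real.exp (ρ.re * t) * (‖B‖ * ‖ZN‖) ≤ Real.exp (ρ.re * t) * (‖B‖ * (Cz (2 * ρ) + Z)) :=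
          mul_le_mul_of_nonneg_left (mul_le_mul_of_nonneg_left k3 (norm_nonneg _)) (Real.exp_pos _).le
      _ = _ := by ring
  have k6 : Real.exp (t / 2) ≤ Real.exp (ρ.re * t) := Real.exp_le_exp.2 (by nlinarith)
  have k7 : ‖S‖ ≥ A * (t * Z) * Real.exp (ρ.re * t) - (8 * C1 + A * C2 + ‖B‖ * (Cz (2 * ρ) + Z)) * Real.exp (ρ.re * t) := by
    have := mul_le_mul_of_nonneg_left k6 (by positivity : 0 ≤ 8 * C1)
    linarith
  have k8 : c * (A * (t * Z) * Real.exp (ρ.re * t)) - K * Real.exp (ρ.re * t) ≤ c * ‖S‖ - C * Real.exp (t / 2) := by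
    have h8 := mul_le_mul_of_nonneg_left k7 hc.le
    have h9 := mul_le_mul_of_nonneg_left k6 hC
    have h10 : c * (A * (t * Z) * Real.exp (ρ.re * t)) - K * Real.exp (ρ.re * t) =
        c * (A * (t * Z) * Real.exp (ρ.re * t) - (8 * C1 + A * C2 + ‖B‖ * (Cz (2 * ρ) + Z)) * Real.exp (ρ.re * t)) -
          C * Real.exp (ρ.re * t) := by
      rw [hK]; ring
    rw [h10]
    linarith
  have k9 := mul_le_mul_of_nonneg_right g1 (Real.exp_pos (ρ.re * t)).le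
  have k10 : c * A * Z / 2 * (t * Real.exp (ρ.re * t)) = c * (A * (t * Z) * Real.exp (ρ.re * t)) -
      t * (c * A * Z / 2) * Real.exp (ρ.re * t) := by ring
  rw [k10]
  linarith

end

end Pool.Agent.W5h38.ML
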